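import Pool.Agent.U68.RG.Elem

/-!
# Finitely generated abelian vertex groups
-/

set_option autoImplicit false

namespace Pool.Agent.U68.RG

open Pool.Agent.Y110.FJ
open Pool.Agent.R684.FP (IsFreeProd FbC cyc_real)
open Pool.Agent.R941.FJ (C_equiv C_le C_cyc)
open Pool.Agent.Y462.SS (Closed)

variable {C : ∀ (G : Type) [Group G], Prop}

/-- `C` contains all groups which are generated by a finitely generated abelian normal subgroup and
one further element -/
def AbC (C : ∀ (G : Type) [Group G], Prop) : Prop :=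
  ∀ (P : Type) [Group P] (B : Subgroup P), B.Normal → B.FG → (∀ a ∈ B, ∀ b ∈ B, a * b = b * a) →
    (∃ g : P, B ⊔ Subgroup.zpowers g = ⊤) → C P

theorem C_semi_ab (hP : AbC C) {B : Type} [Group B] (hfg : Group.FG B) (hab : ∀ a b : B, a * b = b * a)
    (α : MulAut B) : C (B ⋊[zpowersHom (MulAut B) α] Multiplicative ℤ) := by
  refine hP _ (SemidirectProduct.inl (φ := zpowersHom (MulAut B) α)).range ?_ ?_ ?_
    ⟨SemidirectProduct.inr (Multiplicative.ofAdd 1), ?_⟩
  · rw [SemidirectProduct.range_inl_eq_ker_rightHom]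
    infer_instance
  · exact (Group.fg_iff_subgroup_fg _).1 (Group.fg_range _)
  · rintro _ ⟨a, rfl⟩ _ ⟨b, rfl⟩
    rw [← map_mul, ← map_mul, hab]
  · rw [eq_top_iff]
    rintro x -
    rw [← SemidirectProduct.inl_left_mul_inr_right x]
    refine mul_mem (Subgroup.mem_sup_left ⟨_, rfl⟩) (Subgroup.mem_sup_right ?_)
    have h1 : x.right = (Multiplicative.ofAdd (1 : ℤ)) ^ (Multiplicative.toAdd x.right) := by
      rw [← ofAdd_zsmul, smul_eq_mul, mul_one]
      rfl
    rw [h1, map_zpow]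
    exact ⟨_, rfl⟩

theorem BS_comm {V W : Type} [Group W] {Γ : SimpleGraph V} {A : V → Subgroup W} (hA : IsGP Γ A)
    {T : Set V} (hT : ∀ u ∈ T, ∀ u' ∈ T, u ≠ u' → Γ.Adj u u')
    (hab : ∀ v ∈ T, ∀ a ∈ A v, ∀ b ∈ A v, a * b = b * a) :
    ∀ a ∈ BS A T, ∀ b ∈ BS A T, a * b = b * a := by
  have h0 : ∀ u ∈ T, ∀ u' ∈ T, ∀ a ∈ A u, ∀ b ∈ A u', a * b = b * a := by
    intro u hu u' hu' a ha b hb
    by_cases h : u = u'
    · subst h
      exact hab u hu a ha b hb
    · exact hA.comm u u' (hT u hu u' hu' h) a ha b hb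
  have h1 : ∀ u ∈ T, ∀ a ∈ A u, ∀ b ∈ BS A T, a * b = b * a := by
    intro u hu a ha
    have h2 : BS A T ≤ Subgroup.centralizer {a} := by
      refine BS_le.2 fun u' hu' b hb => ?_
      rw [Subgroup.mem_centralizer_singleton_iff]
      exact (h0 u hu u' hu' a ha b hb).symm
    intro b hb
    have h3 := h2 hb
    rw [Subgroup.mem_centralizer_singleton_iff] at h3
    exact h3.symm
  intro a ha b hb
  have h2 : BS A T ≤ Subgroup.centralizer {b} := by
    refine BS_le.2 fun u' hu' a ha => ?_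
    rw [Subgroup.mem_centralizer_singleton_iff]
    exact h1 u' hu' a ha b hb
  have h3 := h2 ha
  rw [Subgroup.mem_centralizer_singleton_iff] at h3
  exact h3

theorem BS_fg {V W : Type} [Group W] {A : V → Subgroup W} {T : Set V} (hT : T.Finite)
    (hfg : ∀ v ∈ T, (A v).FG) : (BS A T).FG := by
  have : Finite T := hT
  have h1 : BS A T = ⨆ v : T, A v.1 := by
    rw [BS, iSup_subtype']
  rw [h1]
  choose S hS using fun v : T => hfg v.1 v.2
  rw [Subgroup.fg_iff]
  refine ⟨⋃ v : T, (S v : Set W), ?_, Set.finite_iUnion fun v => (S v).finite_toSet⟩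
  rw [Subgroup.closure_iUnion]
  exact iSup_congr fun v => hS v

/-- **finitely generated abelian vertex groups** -/
theorem main_abel (hC : ClosedE C) (hF : FbC C) (hP : AbC C) {V W G : Type} [Group W]
    [Group G] {Γ : SimpleGraph V} {A : V → Subgroup W} {I : Set V} {N : Subgroup G}
    [N.Normal] (e : W ≃* N) (hA : IsGP Γ A) (hI : ∀ v ∈ I, Nonempty (Multiplicative ℤ ≃* A v))
    (hfg : ∀ v, (A v).FG) (hab : ∀ v, ∀ a ∈ A v, ∀ b ∈ A v, a * b = b * a)
    (hel : ∀ g : G, cj e g ∈ Subgroup.closure {σ | Elem Γ A I σ})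
    (hQ : C (G ⧸ N)) : C G := by
  refine main_elem hC hF e hA hI hel (fun T hT hTw g α _ => ?_) hQ
  have h1 := BS_comm hA (T := T) (fun u hu u' hu' h => (hTw u hu u' hu' h).1) (fun v _ => hab v)
  exact C_semi_ab hP ((Group.fg_iff_subgroup_fg _).2 (BS_fg hT fun v _ => hfg v))
    (fun a b => Subtype.ext (h1 a a.2 b b.2)) α

end Pool.Agent.U68.RG
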