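import Pool.Agent.R684.FP.Main
import Pool.Agent.R942.FJ.Det

/-!
# Graph products: the kernel of the retraction which kills a set of vertices with common link
-/

set_option autoImplicit false

namespace Pool.Agent.U68.RG

open Pool.Agent.R684.FP (IsFreeProd)

/-! ### permuting the factors of a free power -/

section act

variable {H X B : Type} [Group H] [MulAction H X] [Group B]

/-- the inclusion of a factor -/
abbrev ofc (x : X) : B →* Monoid.CoprodI (fun _ : X => B) :=
  Monoid.CoprodI.of (M := fun _ : X => B) (i := x)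

/-- permutation of the factors -/
noncomputable def cpMap (h : H) : Monoid.CoprodI (fun _ : X => B) →* Monoid.CoprodI (fun _ : X => B) :=
  Monoid.CoprodI.lift fun x => ofc (h • x)

theorem cpMap_of (h : H) (x : X) (b : B) : cpMap h (ofc x b) = ofc (h • x) b := by
  rw [cpMap, Monoid.CoprodI.lift_of]

theorem cp_ext {T : Type} [Monoid T] (f g : Monoid.CoprodI (fun _ : X => B) →* T)
    (h : ∀ x b, f (ofc x b) = g (ofc x b)) : f = g :=
  Monoid.CoprodI.ext_hom f g fun x => MonoidHom.ext fun b => h x b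

variable (H X B) in
/-- the action on the free power -/
noncomputable def cpAct : H →* MulAut (Monoid.CoprodI (fun _ : X => B)) where
  toFun h :=
    { toFun := cpMap h
      invFun := cpMap h⁻¹
      left_inv := fun a => by
        have : (cpMap h⁻¹).comp (cpMap h) = MonoidHom.id (Monoid.CoprodI (fun _ : X => B)) :=
          cp_ext _ _ fun x b => by
            rw [MonoidHom.comp_apply, cpMap_of, cpMap_of, inv_smul_smul, MonoidHom.id_apply]
        exact DFunLike.congr_fun this a
      right_inv := fun a => by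
        have : (cpMap h).comp (cpMap h⁻¹) = MonoidHom.id (Monoid.CoprodI (fun _ : X => B)) :=
          cp_ext _ _ fun x b => by
            rw [MonoidHom.comp_apply, cpMap_of, cpMap_of, smul_inv_smul, MonoidHom.id_apply]
        exact DFunLike.congr_fun this a
      map_mul' := map_mul _ }
  map_one' := by
    ext a
    have : cpMap (1 : H) = MonoidHom.id (Monoid.CoprodI (fun _ : X => B)) :=
      cp_ext _ _ fun x b => by rw [cpMap_of, one_smul, MonoidHom.id_apply]
    exact DFunLike.congr_fun this a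
  map_mul' h k := by
    ext a
    have : cpMap (h * k) = (cpMap h).comp (cpMap (X := X) (B := B) k) :=
      cp_ext _ _ fun x b => by
        rw [MonoidHom.comp_apply, cpMap_of, cpMap_of, cpMap_of, mul_smul]
    exact DFunLike.congr_fun this a

theorem cpAct_of (h : H) (x : X) (b : B) : cpAct H X B h (ofc x b) = ofc (h • x) b :=
  cpMap_of h x b

end act

/-! ### graph products -/

variable {V W : Type} [Group W]

/-- `W` is the graph product over `Γ` of its subgroups `A v` -/
structure IsGP (Γ : SimpleGraph V) (A : V → Subgroup W) : Prop where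
  gen : ⨆ v, A v = ⊤
  comm : ∀ v w, Γ.Adj v w → ∀ a ∈ A v, ∀ b ∈ A w, a * b = b * a
  univ : ∀ (T : Type) [Group T] (f : ∀ v, A v →* T),
    (∀ v w, Γ.Adj v w → ∀ (a : A v) (b : A w), f v a * f w b = f w b * f v a) →
    ∃ h : W →* T, ∀ v (a : A v), h a = f v a

/-- the subgroup generated by the vertex groups of a set of vertices -/
def BS (A : V → Subgroup W) (S : Set V) : Subgroup W := ⨆ v ∈ S, A v

theorem le_BS (A : V → Subgroup W) {S : Set V} {v : V} (h : v ∈ S) : A v ≤ BS A S :=
  le_iSup₂_of_le (f := fun v (_ : v ∈ S) => A v) v h le_rfl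

theorem BS_le {A : V → Subgroup W} {S : Set V} {K : Subgroup W} : BS A S ≤ K ↔ ∀ v ∈ S, A v ≤ K :=
  iSup₂_le_iff

theorem BS_mono (A : V → Subgroup W) {S T : Set V} (h : S ⊆ T) : BS A S ≤ BS A T :=
  BS_le.2 fun _ hv => le_BS A (h hv)

theorem BS_sup (A : V → Subgroup W) (S : Set V) : BS A S ⊔ BS A Sᶜ = ⨆ v, A v := by
  apply le_antisymm
  · exact sup_le (BS_le.2 fun v _ => le_iSup A v) (BS_le.2 fun v _ => le_iSup A v)
  · refine iSup_le fun v => ?_
    by_cases h : v ∈ S
    · exact (le_BS A h).trans le_sup_left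
    · exact (le_BS A (S := Sᶜ) h).trans le_sup_right

/-- homomorphisms which agree on the vertex groups in `S` agree on `BS A S` -/
theorem BS_eq {A : V → Subgroup W} {S : Set V} {T : Type} [Group T] (f g : W →* T)
    (h : ∀ v ∈ S, ∀ a ∈ A v, f a = g a) {x : W} (hx : x ∈ BS A S) : f x = g x := by
  have : BS A S ≤ f.eqLocus g := BS_le.2 fun v hv a ha => h v hv a ha
  exact this hx

section dec

variable {Γ : SimpleGraph V} {A : V → Subgroup W} (hA : IsGP Γ A) {S L : Set V}

/-- the set of cosets which indexes the factors -/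
abbrev XX (A : V → Subgroup W) (S L : Set V) : Type :=
  ↥(BS A Sᶜ) ⧸ ((BS A L).subgroupOf (BS A Sᶜ))

/-- the semidirect product -/
abbrev TT (A : V → Subgroup W) (S L : Set V) : Type :=
  Monoid.CoprodI (fun _ : XX A S L => ↥(BS A S)) ⋊[cpAct ↥(BS A Sᶜ) (XX A S L) ↥(BS A S)] ↥(BS A Sᶜ)

/-- `S` has the common link `L` in the complement of `S` -/
structure Link (Γ : SimpleGraph V) (S L : Set V) : Prop where
  sub : L ⊆ Sᶜ
  adj : ∀ s ∈ S, ∀ v, v ∉ S → (Γ.Adj s v ↔ v ∈ L)

theorem comm_BL (hA : IsGP Γ A) (hL : Link Γ S L) {b l : W} (hb : b ∈ BS A S) (hl : l ∈ BS A L) :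
    b * l = l * b := by
  have h1 : BS A S ≤ Subgroup.centralizer (BS A L : Set W) := by
    refine BS_le.2 fun s hs a ha => ?_
    have h2 : BS A L ≤ Subgroup.centralizer {a} := by
      refine BS_le.2 fun v hv c hc => ?_
      rw [Subgroup.mem_centralizer_singleton_iff]
      exact (hA.comm s v ((hL.adj s hs v (hL.sub hv)).2 hv) a ha c hc).symm
    rw [Subgroup.mem_centralizer_iff]
    intro c hc
    have h3 := h2 hc
    rw [Subgroup.mem_centralizer_singleton_iff] at h3
    exact h3
  exact (Subgroup.mem_centralizer_iff.1 (h1 hb) l hl).symm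

/-- the base point -/
abbrev x0 (A : V → Subgroup W) (S L : Set V) : XX A S L := QuotientGroup.mk 1

theorem smul_x0 {l : ↥(BS A Sᶜ)} (hl : (l : W) ∈ BS A L) : l • x0 A S L = x0 A S L := by
  show (QuotientGroup.mk (l * 1) : XX A S L) = QuotientGroup.mk 1
  rw [QuotientGroup.eq, mul_one, mul_one]
  exact inv_mem (Subgroup.mem_subgroupOf.2 hl)

include hA in
theorem exists_Phi (hL : Link Γ S L) : ∃ Φ : W →* TT A S L,
    (∀ b : ↥(BS A S), Φ b = SemidirectProduct.inl (ofc (x0 A S L) b)) ∧
    ∀ h : ↥(BS A Sᶜ), Φ h = SemidirectProduct.inr h := by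
  classical
  let f : ∀ v, A v →* TT A S L := fun v =>
    if hv : v ∈ S then
      (SemidirectProduct.inl.comp (ofc (x0 A S L))).comp (Subgroup.inclusion (le_BS A hv))
    else SemidirectProduct.inr.comp (Subgroup.inclusion (le_BS A (S := Sᶜ) hv))
  have f1 : ∀ v (hv : v ∈ S) (a : A v), f v a =
      SemidirectProduct.inl (ofc (x0 A S L) (Subgroup.inclusion (le_BS A hv) a)) := by
    intro v hv a
    simp only [f, dif_pos hv]
    rfl
  have f2 : ∀ v (hv : v ∉ S) (a : A v), f v a =
      SemidirectProduct.inr (Subgroup.inclusion (le_BS A (S := Sᶜ) hv) a) := by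
    intro v hv a
    simp only [f, dif_neg hv]
    rfl
  have f3 : ∀ v w, v ∈ S → w ∉ S → Γ.Adj v w → ∀ (a : A v) (b : A w),
      f v a * f w b = f w b * f v a := by
    intro v w hv hw h a b
    have h1 : w ∈ L := (hL.adj v hv w hw).1 h
    rw [f1 v hv, f2 w hw]
    apply SemidirectProduct.ext
    · rw [SemidirectProduct.mul_left, SemidirectProduct.mul_left]
      simp only [SemidirectProduct.left_inl, SemidirectProduct.right_inl,
        SemidirectProduct.left_inr, SemidirectProduct.right_inr, map_one, one_mul, mul_one]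
      rw [cpAct_of, smul_x0 (le_BS A h1 b.2)]
    · rw [SemidirectProduct.mul_right, SemidirectProduct.mul_right]
      simp only [SemidirectProduct.right_inl, SemidirectProduct.right_inr, one_mul, mul_one]
  obtain ⟨Φ, hΦ⟩ := hA.univ (TT A S L) f (by
    intro v w h a b
    by_cases hv : v ∈ S <;> by_cases hw : w ∈ S
    · rw [f1 v hv, f1 w hw, ← map_mul, ← map_mul, ← map_mul, ← map_mul]
      congr 2
      exact Subtype.ext (hA.comm v w h a a.2 b b.2)
    · exact f3 v w hv hw h a b
    · exact (f3 w v hw hv h.symm b a).symm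
    · rw [f2 v hv, f2 w hw, ← map_mul, ← map_mul]
      congr 1
      exact Subtype.ext (hA.comm v w h a a.2 b b.2))
  refine ⟨Φ, ?_, ?_⟩
  · rintro ⟨b, hb⟩
    -- both sides are homomorphisms on `BS A S`
    have : ∀ (K : Subgroup W) (hK : K ≤ BS A S), K = BS A S → True := fun _ _ _ => trivial
    let E : Subgroup W :=
      { carrier := {x | ∃ hx : x ∈ BS A S, Φ x = SemidirectProduct.inl (ofc (x0 A S L) ⟨x, hx⟩)}
        one_mem' := ⟨one_mem _, by
          rw [map_one]
          have : (⟨1, one_mem _⟩ : ↥(BS A S)) = 1 := rfl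
          rw [this, map_one, map_one]⟩
        mul_mem' := by
          rintro x y ⟨hx, h1⟩ ⟨hy, h2⟩
          refine ⟨mul_mem hx hy, ?_⟩
          rw [map_mul, h1, h2, ← map_mul, ← map_mul]
          rfl
        inv_mem' := by
          rintro x ⟨hx, h1⟩
          refine ⟨inv_mem hx, ?_⟩
          rw [map_inv, h1, ← map_inv, ← map_inv]
          rfl }
    have hE : BS A S ≤ E := BS_le.2 fun v hv a ha =>
      ⟨le_BS A hv ha, by rw [show Φ a = f v ⟨a, ha⟩ from hΦ v ⟨a, ha⟩, f1 v hv]; rfl⟩
    obtain ⟨h1, h2⟩ := hE hb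
    exact h2
  · rintro ⟨b, hb⟩
    let E : Subgroup W :=
      { carrier := {x | ∃ hx : x ∈ BS A Sᶜ, Φ x = SemidirectProduct.inr ⟨x, hx⟩}
        one_mem' := ⟨one_mem _, by
          rw [map_one]
          have : (⟨1, one_mem _⟩ : ↥(BS A Sᶜ)) = 1 := rfl
          rw [this, map_one]⟩
        mul_mem' := by
          rintro x y ⟨hx, h1⟩ ⟨hy, h2⟩
          refine ⟨mul_mem hx hy, ?_⟩
          rw [map_mul, h1, h2, ← map_mul]
          rfl
        inv_mem' := by
          rintro x ⟨hx, h1⟩
          refine ⟨inv_mem hx, ?_⟩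
          rw [map_inv, h1, ← map_inv]
          rfl }
    have hE : BS A Sᶜ ≤ E := BS_le.2 fun v hv a ha =>
      ⟨le_BS A hv ha, by rw [show Φ a = f v ⟨a, ha⟩ from hΦ v ⟨a, ha⟩, f2 v hv]; rfl⟩
    obtain ⟨h1, h2⟩ := hE hb
    exact h2

/-- the conjugate of `BS A S` by a representative of the coset `q` -/
noncomputable def Cj (A : V → Subgroup W) (S L : Set V) (q : XX A S L) : Subgroup W :=
  (BS A S).map (MulAut.conj (q.out : W)).toMonoidHom

theorem mem_Cj {q : XX A S L} {x : W} :
    x ∈ Cj A S L q ↔ (q.out : W)⁻¹ * x * (q.out : W) ∈ BS A S := by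
  rw [Cj]
  constructor
  · rintro ⟨b, hb, rfl⟩
    have : (q.out : W)⁻¹ * ((q.out : W) * b * (q.out : W)⁻¹) * (q.out : W) = b := by group
    show (q.out : W)⁻¹ * ((q.out : W) * b * (q.out : W)⁻¹) * (q.out : W) ∈ _
    rw [this]
    exact hb
  · intro h
    refine ⟨_, h, ?_⟩
    show (q.out : W) * ((q.out : W)⁻¹ * x * (q.out : W)) * (q.out : W)⁻¹ = x
    group

/-- a conjugate of `BS A S` by an element of `BS A Sᶜ` depends on the coset only -/
theorem conj_out (hA : IsGP Γ A) (hL : Link Γ S L) (h : ↥(BS A Sᶜ)) {b : W} (hb : b ∈ BS A S) :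
    ((QuotientGroup.mk h : XX A S L).out : W) * b * ((QuotientGroup.mk h : XX A S L).out : W)⁻¹ =
      (h : W) * b * (h : W)⁻¹ := by
  obtain ⟨l, hl⟩ := QuotientGroup.mk_out_eq_mul ((BS A L).subgroupOf (BS A Sᶜ)) h
  have h1 : ((QuotientGroup.mk h : XX A S L).out : W) = (h : W) * (l : ↥(BS A Sᶜ)) := by
    rw [hl]; rfl
  have h2 : ((l : ↥(BS A Sᶜ)) : W) ∈ BS A L := Subgroup.mem_subgroupOf.1 l.2
  have h3 := comm_BL hA hL hb h2
  rw [h1]
  calc (h : W) * (l : ↥(BS A Sᶜ)) * b * ((h : W) * (l : ↥(BS A Sᶜ)))⁻¹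
      = (h : W) * ((l : ↥(BS A Sᶜ)) * b) * ((l : ↥(BS A Sᶜ)) : W)⁻¹ * (h : W)⁻¹ := by group
    _ = (h : W) * (b * (l : ↥(BS A Sᶜ))) * ((l : ↥(BS A Sᶜ)) : W)⁻¹ * (h : W)⁻¹ := by rw [h3]
    _ = (h : W) * b * (h : W)⁻¹ := by group

/-- the homomorphism from the free power to `W` -/
noncomputable def Psi (A : V → Subgroup W) (S L : Set V) :
    Monoid.CoprodI (fun _ : XX A S L => ↥(BS A S)) →* W :=
  Monoid.CoprodI.lift fun q => (MulAut.conj (q.out : W)).toMonoidHom.comp (BS A S).subtype

theorem Psi_of (q : XX A S L) (b : ↥(BS A S)) :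
    Psi A S L (ofc q b) = (q.out : W) * b * (q.out : W)⁻¹ := by
  rw [Psi, Monoid.CoprodI.lift_of]
  rfl

theorem Psi_act (hA : IsGP Γ A) (hL : Link Γ S L) (h : ↥(BS A Sᶜ))
    (a : Monoid.CoprodI (fun _ : XX A S L => ↥(BS A S))) :
    Psi A S L (cpAct _ _ _ h a) = (h : W) * Psi A S L a * (h : W)⁻¹ := by
  have : (Psi A S L).comp (cpAct _ _ _ h).toMonoidHom =
      (MulAut.conj (h : W)).toMonoidHom.comp (Psi A S L) := by
    refine cp_ext _ _ fun q b => ?_
    show Psi A S L (cpAct _ _ _ h (ofc q b)) = (h : W) * Psi A S L (ofc q b) * (h : W)⁻¹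
    rw [cpAct_of, Psi_of, Psi_of]
    obtain ⟨k, rfl⟩ := QuotientGroup.mk_surjective q
    have e1 : h • (QuotientGroup.mk k : XX A S L) = QuotientGroup.mk (h * k) := rfl
    rw [e1, conj_out hA hL _ b.2, conj_out hA hL _ b.2, Subgroup.coe_mul]
    group
  exact DFunLike.congr_fun this a

end dec

end Pool.Agent.U68.RG
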