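import Pool.Agent.U68.RG.Loc

/-!
# Domination and elementary automorphisms
-/

set_option autoImplicit false

namespace Pool.Agent.U68.RG

open Pool.Agent.Y110.FJ
open Pool.Agent.R684.FP (IsFreeProd FbC cyc_real)
open Pool.Agent.R941.FJ (C_equiv C_le C_cyc)
open Pool.Agent.Y462.SS (Closed)

variable {C : ∀ (G : Type) [Group G], Prop}

section dom

variable {V : Type} {Γ : SimpleGraph V} {I : Set V}

/-- `w` dominates `v`: each neighbour of `v` is `w` or a neighbour of `w`, and `v` is in `I`, or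
`v = w`, or `v` and `w` are adjacent -/
def Dom (Γ : SimpleGraph V) (I : Set V) (v w : V) : Prop :=
  (∀ u, Γ.Adj v u → u = w ∨ Γ.Adj w u) ∧ (v ∈ I ∨ v = w ∨ Γ.Adj v w)

theorem Dom.refl (v : V) : Dom Γ I v v := ⟨fun _ h => Or.inr h, Or.inr (Or.inl rfl)⟩

theorem Dom.trans {v w z : V} (h : Dom Γ I v w) (h' : Dom Γ I w z) : Dom Γ I v z := by
  obtain ⟨h1, h2⟩ := h
  obtain ⟨h3, h4⟩ := h'
  refine ⟨fun u hu => ?_, ?_⟩
  · rcases h1 u hu with rfl | h5
    · rcases h3 v hu.symm with rfl | h6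
      · exact Or.inr hu
      · rcases h1 z h6.symm with h7 | h7
        · exact Or.inl h7.symm
        · exact Or.inr h7.symm
    · exact h3 u h5
  · rcases h2 with h2 | rfl | h2
    · exact Or.inl h2
    · exact h4
    · rcases h3 v h2.symm with rfl | h6
      · exact Or.inr (Or.inl rfl)
      · exact Or.inr (Or.inr h6.symm)

theorem strat_dom (Γ : SimpleGraph V) (I : Set V) : Strat Γ (Dom Γ I) := by
  refine ⟨Dom.refl, fun u v w => Dom.trans, fun s s' h h' v hv => ⟨fun h1 => ?_, fun h1 => ?_⟩⟩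
  · rcases h.1 v h1 with rfl | h2
    · exact absurd h hv
    · exact h2
  · rcases h'.1 v h1 with rfl | h2
    · exact absurd (Dom.refl v) hv
    · exact h2

/-- twins -/
def Twins (Γ : SimpleGraph V) (T : Set V) : Prop :=
  ∀ u ∈ T, ∀ u' ∈ T, u ≠ u' → Γ.Adj u u' ∧ ∀ z, z ≠ u → z ≠ u' → (Γ.Adj u z ↔ Γ.Adj u' z)

theorem types {T : Set V} (h : ∀ u ∈ T, ∀ u' ∈ T, Dom Γ I u u') :
    Twins Γ T ∨ (T ⊆ I ∧ ∀ u ∈ T, ∀ u' ∈ T, ¬ Γ.Adj u u') := by
  by_cases hadj : ∃ u ∈ T, ∃ u' ∈ T, Γ.Adj u u'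
  · left
    obtain ⟨u, hu, u', hu', huu⟩ := hadj
    have h1 : ∀ x ∈ T, x ≠ u → Γ.Adj u x := by
      intro x hx hxu
      rcases (h u hu x hx).1 u' huu with h2 | h2
      · rw [← h2]; exact huu
      · rcases (h u' hu' u hu).1 x h2.symm with h3 | h3
        · exact absurd h3 hxu
        · exact h3
    intro x hx y hy hxy
    have h2 : Γ.Adj x y := by
      by_cases hyu : y = u
      · rw [hyu] at hxy ⊢
        exact (h1 x hx hxy).symm
      · rcases (h u hu x hx).1 y (h1 y hy hyu) with h3 | h3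
        · exact absurd h3.symm hxy
        · exact h3
    refine ⟨h2, fun z hzx hzy => ⟨fun h3 => ?_, fun h3 => ?_⟩⟩
    · rcases (h x hx y hy).1 z h3 with h4 | h4
      · exact absurd h4 hzy
      · exact h4
    · rcases (h y hy x hx).1 z h3 with h4 | h4
      · exact absurd h4 hzx
      · exact h4
  · push Not at hadj
    by_cases h2 : ∃ u ∈ T, u ∉ I
    · left
      obtain ⟨u, hu, huI⟩ := h2
      have h3 : ∀ x ∈ T, u = x := by
        intro x hx
        rcases (h u hu x hx).2 with h4 | h4 | h4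
        · exact absurd h4 huI
        · exact h4
        · exact absurd h4 (hadj u hu x hx)
      intro x hx y hy hxy
      exact absurd ((h3 x hx).symm.trans (h3 y hy)) hxy
    · right
      push Not at h2
      exact ⟨h2, hadj⟩

end dom

/-! ### free groups -/

section free

variable {V W : Type} [Group W] {Γ : SimpleGraph V} {A : V → Subgroup W}

theorem BS_free (hA : IsGP Γ A) {T : Set V} (hT : ∀ v ∈ T, Nonempty (Multiplicative ℤ ≃* A v))
    (hadj : ∀ u ∈ T, ∀ u' ∈ T, ¬ Γ.Adj u u') : IsFreeGroup ↥(BS A T) := by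
  classical
  let E : ∀ t : T, Multiplicative ℤ ≃* A t.1 := fun t => (hT t.1 t.2).some
  obtain ⟨x, hx⟩ : ∃ x : T → W, x = fun t => ((E t (Multiplicative.ofAdd 1) : A t.1) : W) := ⟨_, rfl⟩
  have hxz : ∀ t (a : A t.1), (a : W) = x t ^ (Multiplicative.toAdd ((E t).symm a)) := by
    intro t a
    obtain ⟨k, rfl⟩ := (E t).surjective a
    rw [(E t).symm_apply_apply, hx]
    show _ = ((E t (Multiplicative.ofAdd 1) : A t.1) : W) ^ (Multiplicative.toAdd k)
    rw [← Subgroup.coe_zpow, ← map_zpow]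
    congr 2
    rw [← ofAdd_zsmul, smul_eq_mul, mul_one]
    rfl
  let φ : FreeGroup T →* W := FreeGroup.lift x
  obtain ⟨ψ, hψ⟩ := hA.univ (FreeGroup T)
    (fun v => if hv : v ∈ T then
      (zpowersHom (FreeGroup T) (FreeGroup.of ⟨v, hv⟩)).comp (E ⟨v, hv⟩).symm.toMonoidHom else 1) (by
      intro v w hvw a b
      by_cases hv : v ∈ T
      · have hw : w ∉ T := fun hw => hadj v hv w hw hvw
        rw [dif_neg hw, MonoidHom.one_apply, mul_one, one_mul]
      · rw [dif_neg hv, MonoidHom.one_apply, mul_one, one_mul])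
  have hψx : ∀ t : T, ψ (x t) = FreeGroup.of t := by
    intro t
    have h1 := hψ t.1 (E t (Multiplicative.ofAdd 1))
    rw [dif_pos t.2] at h1
    rw [hx]
    refine h1.trans ?_
    show (zpowersHom (FreeGroup T) (FreeGroup.of t)) ((E t).symm (E t (Multiplicative.ofAdd 1))) = _
    rw [(E t).symm_apply_apply, zpowersHom_apply, toAdd_ofAdd, zpow_one]
  have hinj : Function.Injective φ := by
    have h1 : ψ.comp φ = MonoidHom.id _ := by
      ext t
      rw [MonoidHom.comp_apply, FreeGroup.lift_apply_of, hψx, MonoidHom.id_apply]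
    intro a b hab
    have h2 := congrArg ψ hab
    rw [← MonoidHom.comp_apply, ← MonoidHom.comp_apply, h1] at h2
    exact h2
  have hrange : φ.range = BS A T := by
    apply le_antisymm
    · rintro _ ⟨a, rfl⟩
      refine FreeGroup.induction_on a ?_ ?_ ?_ ?_
      · rw [map_one]; exact one_mem _
      · intro t
        rw [FreeGroup.lift_apply_of, hx]
        exact le_BS A t.2 (E t (Multiplicative.ofAdd 1)).2
      · intro t ht
        rw [map_inv]
        exact inv_mem ht
      · intro a b ha hb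
        rw [map_mul]
        exact mul_mem ha hb
    · refine BS_le.2 fun v hv a ha => ?_
      have h1 := hxz ⟨v, hv⟩ ⟨a, ha⟩
      have h2 : a = x ⟨v, hv⟩ ^ (Multiplicative.toAdd ((E ⟨v, hv⟩).symm ⟨a, ha⟩)) := h1
      rw [h2]
      refine zpow_mem ?_ _
      exact ⟨FreeGroup.of ⟨v, hv⟩, FreeGroup.lift_apply_of⟩
  have : IsFreeGroup ↥φ.range := IsFreeGroup.ofMulEquiv (MonoidHom.ofInjective hinj)
  rw [← hrange]
  exact this

theorem C_free (hC : ClosedE C) (hF : FbC C) {B : Type} [Group B] [IsFreeGroup B] (α : MulAut B) :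
    C (B ⋊[zpowersHom (MulAut B) α] Multiplicative ℤ) :=
  C_semi hC.base (IsFreeGroup.toFreeGroup B) α _ rfl (hF _ _)

end free

end Pool.Agent.U68.RG
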