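import Pool.Agent.U68.RG.Dom

/-!
# Elementary automorphisms
-/

set_option autoImplicit false

namespace Pool.Agent.U68.RG

open Pool.Agent.Y110.FJ
open Pool.Agent.R684.FP (IsFreeProd FbC cyc_real)
open Pool.Agent.R941.FJ (C_equiv C_le C_cyc)
open Pool.Agent.Y462.SS (Closed)

variable {C : ∀ (G : Type) [Group G], Prop}

section el

variable {V W : Type} [Group W] {Γ : SimpleGraph V} {A : V → Subgroup W} {I : Set V}

/-- elementary automorphisms of a graph product -/
inductive Elem (Γ : SimpleGraph V) (A : V → Subgroup W) (I : Set V) (σ : MulAut W) : Prop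
  /-- `σ` and its inverse map `A v` into the subgroup generated by `A v` and the groups `A w` with `w`
  dominating `v` for the `v` in a finite set, and `σ` maps each other `A v` onto itself -/
  | tri (F : Set V) (hF : F.Finite)
      (h1 : ∀ v ∈ F, (A v).map σ.toMonoidHom ≤ BS A {w | Dom Γ I v w})
      (h2 : ∀ v ∈ F, (A v).map σ⁻¹.toMonoidHom ≤ BS A {w | Dom Γ I v w})
      (h3 : ∀ v, v ∉ F → (A v).map σ.toMonoidHom = A v)
  /-- partial conjugation by an element `c` of `A a`: here `D` is a union of connected components of the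
  graph without `a` and its neighbours -/
  | pconj (a : V) (c : W) (hc : c ∈ A a) (D : Set V) (h0 : ∀ u ∈ D, u ≠ a ∧ ¬ Γ.Adj a u)
      (h1 : ∀ u ∈ D, ∀ u', Γ.Adj u u' → u' ≠ a → ¬ Γ.Adj a u' → u' ∈ D)
      (h2 : ∀ u ∈ D, ∀ x ∈ A u, σ x = c * x * c⁻¹)
      (h3 : ∀ u, u ∉ D → ∀ x ∈ A u, σ x = x)
  /-- automorphisms which permute the vertex groups -/
  | perm (π : Equiv.Perm V) (hf : {v | π v ≠ v}.Finite) (hΓ : ∀ u v, Γ.Adj u v ↔ Γ.Adj (π u) (π v))
      (hI : ∀ v, v ∈ I ↔ π v ∈ I) (h : ∀ v, (A v).map σ.toMonoidHom = A (π v))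

theorem map_inv_of {σ : MulAut W} {P Q : Subgroup W} (h : P.map σ.toMonoidHom = Q) :
    Q.map σ⁻¹.toMonoidHom = P := by
  rw [← h, ← map_mul_aut, inv_mul_cancel, map_one_aut]

theorem BS_map_le {σ : MulAut W} {T : Set V} {K : Subgroup W}
    (h : ∀ v ∈ T, (A v).map σ.toMonoidHom ≤ K) : (BS A T).map σ.toMonoidHom ≤ K := by
  rw [map_BS]
  exact iSup₂_le h

theorem Elem.inv {σ : MulAut W} (h : Elem Γ A I σ) : Elem Γ A I σ⁻¹ := by
  cases h with
  | tri F hF h1 h2 h3 =>
    refine Elem.tri F hF h2 (by rw [inv_inv]; exact h1) fun v hv => map_inv_of (h3 v hv)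
  | pconj a c hc D h0 h1 h2 h3 =>
    have hca : σ c = c := h3 a (fun h => (h0 a h).1 rfl) c hc
    refine Elem.pconj a c⁻¹ (inv_mem hc) D h0 h1 (fun u hu x hx => ?_) (fun u hu x hx => ?_)
    · apply σ.injective
      rw [MulAut.apply_inv_self, map_mul, map_mul, map_inv, map_inv, map_inv, hca, h2 u hu x hx]
      group
    · apply σ.injective
      rw [MulAut.apply_inv_self, h3 u hu x hx]
  | perm π hf hΓ hI h =>
    refine Elem.perm π.symm ?_ (fun u v => ?_) (fun v => ?_) fun v => ?_
    · refine hf.subset fun v hv hv' => hv ?_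
      rw [Equiv.symm_apply_eq, hv']
    · rw [hΓ (π.symm u) (π.symm v), Equiv.apply_symm_apply, Equiv.apply_symm_apply]
    · rw [hI (π.symm v), Equiv.apply_symm_apply]
    · have h1 := map_inv_of (h (π.symm v))
      rw [Equiv.apply_symm_apply] at h1
      exact h1

/-- a finite set of vertices which controls `σ` -/
def Ctl (Γ : SimpleGraph V) (A : V → Subgroup W) (I : Set V) (σ : MulAut W) (F : Set V) : Prop :=
  ∀ V1 : Set V, F ⊆ V1 → Good A (Dom Γ I) V1 σ ∧ Good A (Dom Γ I) V1 σ⁻¹

theorem CE_mul {σ τ : MulAut W} {P Q R : Subgroup W} (h : CE τ P Q) (h' : CE σ Q R) :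
    CE (σ * τ) P R := by
  obtain ⟨n, hn⟩ := h
  obtain ⟨m, hm⟩ := h'
  exact ⟨σ n * m, by rw [map_mul_aut, hn, ← map_mul_aut, aut_conj, map_mul_aut, hm, ← map_mul_aut,
    ← map_mul]⟩

theorem NC_stable {σ : MulAut W} {T : Set V} (h : ∀ v ∈ T, ∀ a ∈ A v, σ a ∈ NC A T) {x : W}
    (hx : x ∈ NC A T) : σ x ∈ NC A T := by
  have h1 : NC A T ≤ (NC A T).comap σ.toMonoidHom := by
    have : ((NC A T).comap σ.toMonoidHom).Normal := inferInstance
    exact NC_le fun u hu a ha => h u hu a ha
  exact h1 hx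

theorem Good.mul {r : V → V → Prop} {V1 : Set V} {σ τ : MulAut W} (h : Good A r V1 σ)
    (h' : Good A r V1 τ) : Good A r V1 (σ * τ) := by
  refine ⟨fun v hv a ha => NC_stable (fun u hu => h.ker u hu) (h'.ker v hv a ha), fun v hv => ?_⟩
  obtain ⟨v', hv', h1⟩ := h'.prm v hv
  obtain ⟨v'', hv'', h2⟩ := h.prm v' hv'
  exact ⟨v'', hv'', CE_mul h1 h2⟩

theorem Good.conj (r : V → V → Prop) (V1 : Set V) (w : W) : Good A r V1 (MulAut.conj w) :=
  ⟨fun _ hv a ha => (inferInstance : (NC A V1ᶜ).Normal).conj_mem a (le_NC hv ha) w,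
    fun v hv => ⟨v, hv, w, rfl⟩⟩

theorem Ctl.mul {σ τ : MulAut W} {F F' : Set V} (h : Ctl Γ A I σ F) (h' : Ctl Γ A I τ F') :
    Ctl Γ A I (σ * τ) (F ∪ F') := fun V1 hV =>
  have h1 := h V1 (Set.subset_union_left.trans hV)
  have h2 := h' V1 (Set.subset_union_right.trans hV)
  ⟨h1.1.mul h2.1, by rw [mul_inv_rev]; exact h2.2.mul h1.2⟩

theorem CE_refl {σ : MulAut W} {P : Subgroup W} (h : P.map σ.toMonoidHom = P) : CE σ P P :=
  ⟨1, by rw [h, map_one, map_one_aut]⟩

/-- the elementary automorphisms satisfy the condition -/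
theorem good_elem (hA : IsGP Γ A) {σ : MulAut W} (h : Elem Γ A I σ) : ∃ F : Set V, F.Finite ∧
    ∀ V1 : Set V, F ⊆ V1 → Good A (Dom Γ I) V1 σ := by
  cases h with
  | tri F hF h1 h2 h3 =>
    refine ⟨F, hF, fun V1 hV => ⟨fun v hv a ha => ?_, fun v hv => ⟨v, hv, CE_refl ?_⟩⟩⟩
    · have h4 : σ a ∈ (A v).map σ.toMonoidHom := ⟨a, ha, rfl⟩
      rw [h3 v (fun h => hv (hV h))] at h4
      exact le_NC hv h4
    · have h4 : ∀ w, Dom Γ I v w → (A w).map σ.toMonoidHom ≤ BS A {w | Dom Γ I v w} := by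
        intro w hw
        by_cases hwF : w ∈ F
        · exact (h1 w hwF).trans (BS_mono A fun u hu => hw.trans hu)
        · rw [h3 w hwF]
          exact le_BS A hw
      have h5 : ∀ w, Dom Γ I v w → (A w).map σ⁻¹.toMonoidHom ≤ BS A {w | Dom Γ I v w} := by
        intro w hw
        by_cases hwF : w ∈ F
        · exact (h2 w hwF).trans (BS_mono A fun u hu => hw.trans hu)
        · rw [map_inv_of (h3 w hwF)]
          exact le_BS A hw
      apply le_antisymm (BS_map_le h4)
      have h6 := Subgroup.map_mono (f := σ.toMonoidHom) (BS_map_le (σ := σ⁻¹) h5)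
      rw [← map_mul_aut, mul_inv_cancel, map_one_aut] at h6
      exact h6
  | pconj a c hc D h0 h1 h2 h3 =>
    refine ⟨∅, Set.finite_empty, fun V1 _ => ⟨fun v hv x hx => ?_, fun v hv => ⟨v, hv, ?_⟩⟩⟩
    · by_cases hD : v ∈ D
      · rw [h2 v hD x hx]
        exact (inferInstance : (NC A V1ᶜ).Normal).conj_mem x (le_NC hv hx) c
      · rw [h3 v hD x hx]
        exact le_NC hv hx
    · by_cases hva : Dom Γ I v a
      · refine CE_refl (le_antisymm (BS_map_le fun w hw => ?_) (BS_le.2 fun w hw x hx => ?_))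
        · rintro _ ⟨x, hx, rfl⟩
          show σ x ∈ _
          by_cases hD : w ∈ D
          · rw [h2 w hD x hx]
            exact mul_mem (mul_mem (le_BS A hva hc) (le_BS A hw hx)) (inv_mem (le_BS A hva hc))
          · rw [h3 w hD x hx]
            exact le_BS A hw hx
        · have hca : σ c = c := h3 a (fun h => (h0 a h).1 rfl) c hc
          by_cases hD : w ∈ D
          · refine ⟨c⁻¹ * x * c, mul_mem (mul_mem (inv_mem (le_BS A hva hc)) (le_BS A hw hx))
              (le_BS A hva hc), ?_⟩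
            show σ (c⁻¹ * x * c) = x
            rw [map_mul, map_mul, map_inv, hca, h2 w hD x hx]
            group
          · exact ⟨x, le_BS A hw hx, h3 w hD x hx⟩
      · obtain ⟨u, hua, hau, hu⟩ : ∃ u, u ≠ a ∧ ¬ Γ.Adj a u ∧ ∀ w, Dom Γ I v w → u = w ∨ Γ.Adj w u := by
          unfold Dom at hva
          rw [not_and_or] at hva
          rcases hva with h4 | h4
          · push Not at h4
            obtain ⟨u, h5, h6, h7⟩ := h4
            exact ⟨u, h6, h7, fun w hw => hw.1 u h5⟩
          · push Not at h4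
            refine ⟨v, h4.2.1, fun h => h4.2.2 h.symm, fun w hw => ?_⟩
            rcases hw.2 with h5 | h5 | h5
            · exact absurd h5 h4.1
            · exact Or.inl h5
            · exact Or.inr h5.symm
        have hwa : ∀ w, Dom Γ I v w → w ≠ a := fun w hw h => hva (h ▸ hw)
        have key : ∀ w, Dom Γ I v w → ¬ Γ.Adj a w → (w ∈ D ↔ u ∈ D) := by
          intro w hw haw
          rcases hu w hw with h4 | h4
          · rw [h4]
          · exact ⟨fun h => h1 w h u h4 hua hau, fun h => h1 u h w h4.symm (hwa w hw) haw⟩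
        by_cases huD : u ∈ D
        · refine ⟨c, ?_⟩
          have h4 : ∀ w, Dom Γ I v w → ∀ x ∈ A w, σ x = c * x * c⁻¹ := by
            intro w hw x hx
            by_cases haw : Γ.Adj a w
            · rw [h3 w (fun h => (h0 w h).2 haw) x hx, hA.comm a w haw c hc x hx]
              group
            · exact h2 w ((key w hw haw).2 huD) x hx
          have h5 : ∀ x ∈ BS A {w | Dom Γ I v w}, σ.toMonoidHom x = (MulAut.conj c).toMonoidHom x :=
            fun x hx => BS_eq (A := A) (S := {w | Dom Γ I v w}) σ.toMonoidHom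
              (MulAut.conj c).toMonoidHom (fun w hw x hx => h4 w hw x hx) hx
          ext y
          constructor
          · rintro ⟨x, hx, rfl⟩
            exact ⟨x, hx, (h5 x hx).symm⟩
          · rintro ⟨x, hx, rfl⟩
            exact ⟨x, hx, h5 x hx⟩
        · refine CE_refl ?_
          have h4 : ∀ w, Dom Γ I v w → ∀ x ∈ A w, σ x = x := by
            intro w hw x hx
            by_cases haw : Γ.Adj a w
            · exact h3 w (fun h => (h0 w h).2 haw) x hx
            · exact h3 w (fun h => huD ((key w hw haw).1 h)) x hx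
          have h5 : ∀ x ∈ BS A {w | Dom Γ I v w}, σ.toMonoidHom x = (MonoidHom.id W) x :=
            fun x hx => BS_eq (A := A) (S := {w | Dom Γ I v w}) σ.toMonoidHom
              (MonoidHom.id W) (fun w hw x hx => h4 w hw x hx) hx
          ext y
          constructor
          · rintro ⟨x, hx, rfl⟩
            rw [h5 x hx]
            exact hx
          · intro hy
            exact ⟨y, hy, h5 y hy⟩
  | perm π hf hΓ hI h =>
    have hπ : ∀ u v, Dom Γ I u v ↔ Dom Γ I (π u) (π v) := by
      intro u v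
      constructor
      · rintro ⟨h1, h2⟩
        refine ⟨fun z hz => ?_, ?_⟩
        · obtain ⟨z, rfl⟩ := π.surjective z
          rw [← hΓ] at hz
          rw [← hΓ, π.injective.eq_iff]
          exact h1 z hz
        · rw [← hΓ, ← hI, π.injective.eq_iff]
          exact h2
      · rintro ⟨h1, h2⟩
        refine ⟨fun z hz => ?_, ?_⟩
        · rw [hΓ] at hz
          rw [hΓ, ← π.injective.eq_iff]
          exact h1 _ hz
        · rw [hΓ, hI, ← π.injective.eq_iff]
          exact h2
    refine ⟨{v | π v ≠ v}, hf, fun V1 hV => ?_⟩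
    have hout : ∀ v, v ∉ V1 → π v = v := fun v hv => by_contra fun h => hv (hV h)
    have hin : ∀ v, v ∈ V1 → π v ∈ V1 := by
      intro v hv
      by_contra h
      have h1 := hout _ h
      have h2 := π.injective h1
      rw [h2] at h
      exact h hv
    refine ⟨fun v hv a ha => ?_, fun v hv => ⟨π v, hin v hv, 1, ?_⟩⟩
    · have h4 : σ a ∈ (A v).map σ.toMonoidHom := ⟨a, ha, rfl⟩
      rw [h, hout v hv] at h4
      exact le_NC hv h4
    · rw [map_one, map_one_aut, map_BS]
      apply le_antisymm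
      · refine iSup₂_le fun w hw => ?_
        rw [h]
        exact le_BS A ((hπ v w).1 hw)
      · refine BS_le.2 fun w hw => ?_
        obtain ⟨w, rfl⟩ := π.surjective w
        refine le_trans (h w).symm.le ?_
        exact le_iSup₂_of_le (f := fun w (_ : w ∈ {w | Dom Γ I v w}) => (A w).map σ.toMonoidHom) w
          ((hπ v w).2 hw) le_rfl

theorem ctl_elem (hA : IsGP Γ A) {σ : MulAut W} (h : Elem Γ A I σ) :
    ∃ F : Set V, F.Finite ∧ Ctl Γ A I σ F := by
  obtain ⟨F, hF, h1⟩ := good_elem hA h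
  obtain ⟨F', hF', h2⟩ := good_elem hA h.inv
  exact ⟨F ∪ F', hF.union hF', fun V1 hV => ⟨h1 V1 (Set.subset_union_left.trans hV),
    h2 V1 (Set.subset_union_right.trans hV)⟩⟩

theorem ctl_closure (hA : IsGP Γ A) {σ : MulAut W}
    (h : σ ∈ Subgroup.closure {σ | Elem Γ A I σ}) : ∃ F : Set V, F.Finite ∧ Ctl Γ A I σ F := by
  refine Subgroup.closure_induction (p := fun σ _ => ∃ F : Set V, F.Finite ∧ Ctl Γ A I σ F)
    (fun σ hσ => ctl_elem hA hσ) ?_ ?_ ?_ h
  · refine ⟨∅, Set.finite_empty, fun V1 _ => ?_⟩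
    rw [inv_one, ← map_one (MulAut.conj (G := W))]
    exact ⟨Good.conj _ _ _, Good.conj _ _ _⟩
  · rintro σ τ _ _ ⟨F, hF, h1⟩ ⟨F', hF', h2⟩
    exact ⟨F ∪ F', hF.union hF', h1.mul h2⟩
  · rintro σ _ ⟨F, hF, h1⟩
    refine ⟨F, hF, fun V1 hV => ?_⟩
    rw [inv_inv]
    exact ⟨(h1 V1 hV).2, (h1 V1 hV).1⟩

end el

/-- **elementary automorphisms** -/
theorem main_elem (hC : ClosedE C) (hF : FbC C) {V W G : Type} [Group W]
    [Group G] {Γ : SimpleGraph V} {A : V → Subgroup W} {I : Set V} {N : Subgroup G}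
    [N.Normal] (e : W ≃* N) (hA : IsGP Γ A) (hI : ∀ v ∈ I, Nonempty (Multiplicative ℤ ≃* A v))
    (hel : ∀ g : G, cj e g ∈ Subgroup.closure {σ | Elem Γ A I σ})
    (hm : ∀ (T : Set V), T.Finite → Twins Γ T → ∀ (g : G)
      (α : MulAut ↥(BS A T)), Ind A T (cj e g) α →
      C (↥(BS A T) ⋊[zpowersHom (MulAut ↥(BS A T)) α] Multiplicative ℤ))
    (hQ : C (G ⧸ N)) : C G := by
  refine main_loc hC hF e hA (strat_dom Γ I) ?_ ?_ hQ
  · intro g E hE
    obtain ⟨F, hF, hctl⟩ := ctl_closure hA (hel g)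
    refine ⟨E ∪ F, hE.union hF, Set.subset_union_left, ?_⟩
    obtain ⟨h1, h2⟩ := hctl (E ∪ F) Set.subset_union_right
    let H : Subgroup G :=
      { carrier := {h | Good A (Dom Γ I) (E ∪ F) (cj e h) ∧ Good A (Dom Γ I) (E ∪ F) (cj e h⁻¹)}
        one_mem' := by
          have h3 : Good A (Dom Γ I) (E ∪ F) (cj e (1 : G)) := by
            rw [cj_one, ← map_one (MulAut.conj (G := W))]
            exact Good.conj _ _ _
          refine ⟨h3, ?_⟩
          rw [inv_one]
          exact h3
        mul_mem' := by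
          rintro a b ⟨ha, ha'⟩ ⟨hb, hb'⟩
          refine ⟨?_, ?_⟩
          · rw [cj_mul]
            exact ha.mul hb
          · rw [mul_inv_rev, cj_mul]
            exact hb'.mul ha'
        inv_mem' := by
          rintro a ⟨ha, ha'⟩
          refine ⟨ha', ?_⟩
          rw [inv_inv]
          exact ha }
    have hle : N ⊔ Subgroup.zpowers g ≤ H := by
      refine sup_le ?_ ?_
      · intro x hx
        have h3 : ∀ w : W, Good A (Dom Γ I) (E ∪ F) (cj e ((e w : N) : G)) := by
          intro w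
          rw [cj_of_mem]
          exact Good.conj _ _ _
        obtain ⟨w, hw⟩ : ∃ w : W, ((e w : N) : G) = x :=
          ⟨e.symm ⟨x, hx⟩, by rw [e.apply_symm_apply]⟩
        refine ⟨?_, ?_⟩
        · rw [← hw]
          exact h3 w
        · rw [← hw, ← InvMemClass.coe_inv, ← map_inv]
          exact h3 w⁻¹
      · rw [Subgroup.zpowers_le]
        refine ⟨h1, ?_⟩
        rw [cj_inv]
        exact h2
    exact fun h hh => (hle hh).1
  · intro T hT hTT g α hα
    rcases types hTT with h1 | ⟨h1, h2⟩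
    · exact hm T hT h1 g α hα
    · have : IsFreeGroup ↥(BS A T) := BS_free hA (fun v hv => hI v (h1 hv)) h2
      exact C_free hC hF α

end Pool.Agent.U68.RG
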