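import Pool.Agent.U68.RG.Gen

/-!
# The main theorem for finite graphs
-/

set_option autoImplicit false

namespace Pool.Agent.U68.RG

open Pool.Agent.Y110.FJ
open Pool.Agent.R684.FP (IsFreeProd FbC cyc_real)
open Pool.Agent.R941.FJ (C_equiv C_le C_cyc)
open Pool.Agent.Y462.SS (Closed)

variable {C : ∀ (G : Type) [Group G], Prop}

/-- `r` is reflexive and transitive, and the elements of a class have the same neighbours outside the
set of the elements above the class -/
structure Strat {V : Type} (Γ : SimpleGraph V) (r : V → V → Prop) : Prop where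
  refl : ∀ v, r v v
  trans : ∀ u v w, r u v → r v w → r u w
  twin : ∀ s s', r s s' → r s' s → ∀ v, ¬ r s v → (Γ.Adj s v ↔ Γ.Adj s' v)

/-- the class of `v` -/
def Cls {V : Type} (r : V → V → Prop) (v : V) : Set V := {w | r v w ∧ r w v}

theorem exists_top {V : Type} [Finite V] [Nonempty V] {r : V → V → Prop} (hr : ∀ v, r v v)
    (ht : ∀ u v w, r u v → r v w → r u w) : ∃ w0, ∀ u, r w0 u → r u w0 := by
  obtain ⟨w0, h⟩ := Finite.exists_min (fun v => ({u | r v u} : Set V).ncard)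
  refine ⟨w0, fun u hu => ?_⟩
  have h1 : {x | r u x} ⊆ {x | r w0 x} := fun x hx => ht _ _ _ hu hx
  have h2 := Set.eq_of_subset_of_ncard_le h1 (h u)
  have h3 : w0 ∈ {x | r w0 x} := hr w0
  rw [← h2] at h3
  exact h3

theorem main_fin (hC : ClosedE C) (hF : FbC C) (n : ℕ) : ∀ (V W G : Type) [Finite V] [Group W]
    [Group G] (Γ : SimpleGraph V) (A : V → Subgroup W) (r : V → V → Prop) (N : Subgroup G)
    [N.Normal] (e : W ≃* N), Nat.card V = n → IsGP Γ A → Strat Γ r →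
    (∀ v g, CE (cj e g) (BS A {w | r v w}) (BS A {w | r v w})) →
    (∀ v g (α : MulAut ↥(BS A (Cls r v))), Ind A (Cls r v) (cj e g) α →
      C (↥(BS A (Cls r v)) ⋊[zpowersHom (MulAut ↥(BS A (Cls r v))) α] Multiplicative ℤ)) →
    C (G ⧸ N) → C G := by
  induction n using Nat.strong_induction_on with
  | _ n ih =>
  intro V W G _ _ _ Γ A r N _ e hn hA hr hp hm hQ
  by_cases hV : Nonempty V
  swap
  · rw [not_nonempty_iff] at hV
    have h1 : (⊥ : Subgroup W) = ⊤ := by rw [← hA.gen, iSup_of_empty]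
    have h2 : N = ⊥ := by
      rw [eq_bot_iff]
      intro x hx
      have h3 : e.symm ⟨x, hx⟩ ∈ (⊥ : Subgroup W) := by rw [h1]; trivial
      have h4 := congrArg e (Subgroup.mem_bot.1 h3)
      rw [e.apply_symm_apply, map_one] at h4
      exact Subgroup.mem_bot.2 (congrArg Subtype.val h4)
    subst h2
    exact C_equiv hC.base QuotientGroup.quotientBot.symm hQ
  obtain ⟨w0, hw0⟩ := exists_top hr.refl hr.trans
  obtain ⟨S, hS⟩ : ∃ S : Set V, S = Cls r w0 := ⟨_, rfl⟩
  have hS' : S = {w | r w0 w} := by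
    rw [hS]
    ext u
    exact ⟨fun h => h.1, fun h => ⟨h, hw0 u h⟩⟩
  have hL : Link Γ S {v | v ∉ S ∧ Γ.Adj w0 v} := by
    refine ⟨fun v hv => hv.1, fun s hs v hv => ?_⟩
    rw [hS] at hs
    have h1 := hr.twin w0 s hs.1 hs.2 v (fun h => hv (by rw [hS']; exact h))
    exact ⟨fun h => ⟨hv, h1.2 h⟩, fun h => h1.1 h.2⟩
  obtain ⟨ρ, hρ⟩ := exists_ret hA hL
  have hp0 : ∀ g, ∃ n : W, ∀ b, b ∈ BS A S ↔ n⁻¹ * cj e g b * n ∈ BS A S := by
    intro g
    obtain ⟨n, hn⟩ := hp w0 g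
    rw [← hS'] at hn
    exact ⟨n, CE_iff hn⟩
  have hker : ∀ (g : G) (w : W), ρ w = 1 → ρ (cj e g w) = 1 := by
    intro g w hw
    obtain ⟨n, hn⟩ := hp0 g
    have h1 := fac hA hρ.toRet0 (ρ.comp (cj e g).toMonoidHom) (fun b hb => by
      have h2 := hρ.kill _ ((hn b).1 hb)
      rw [map_mul, map_mul, map_inv] at h2
      show ρ (cj e g b) = 1
      have h3 : ρ (cj e g b) = ρ n * ((ρ n)⁻¹ * ρ (cj e g b) * ρ n) * (ρ n)⁻¹ := by group
      rw [h3, h2]
      group) w
    rw [hw] at h1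
    rw [← show (ρ.comp (cj e g).toMonoidHom) w = ρ (cj e g w) from rfl, ← h1]
    exact map_one _
  have hKn : (KK e ρ).Normal := KK_normal e hker
  have hNn : (N.map (QuotientGroup.mk' (KK e ρ))).Normal :=
    Subgroup.Normal.map inferInstance _ (QuotientGroup.mk'_surjective _)
  obtain ⟨e', he'⟩ := exists_e' e hρ.toRet0
  have hcard : Nat.card ↥(Sᶜ) < n := by
    rw [← hn]
    refine Finite.card_subtype_lt (x := w0) ?_
    rw [Set.mem_compl_iff, not_not, hS']
    exact hr.refl w0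
  have hCK : C (G ⧸ KK e ρ) := by
    refine ih _ hcard ↥(Sᶜ) ↥(BS A Sᶜ) (G ⧸ KK e ρ) (Γ.induce Sᶜ) (Ac A S)
      (fun v w => r v.1 w.1) (N.map (QuotientGroup.mk' (KK e ρ))) e' rfl (hA.compl S) ?_ ?_ ?_
      (C_quot e hC hQ)
    · exact ⟨fun v => hr.refl v.1, fun u v w => hr.trans u.1 v.1 w.1,
        fun s s' h h' v hv => hr.twin s.1 s'.1 h h' v.1 hv⟩
    · intro v g'
      obtain ⟨g, rfl⟩ := QuotientGroup.mk'_surjective _ g'
      have h1 := CE_desc (ρ := ρ) (σ := cj e g) (σ' := cj e' (QuotientGroup.mk' (KK e ρ) g))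
        (fun w => cj_quot e e' he' g w) (hp v.1 g)
      rw [map_rho hρ.toRet0] at h1
      exact h1
    · intro v g' α' hα'
      obtain ⟨g, rfl⟩ := QuotientGroup.mk'_surjective _ g'
      have hT : Cls r v.1 ⊆ Sᶜ := by
        intro u hu huS
        have h1 : u ∈ {w | r w0 w} := hS' ▸ huS
        have h2 : v.1 ∈ {w | r w0 w} := hr.trans _ _ _ h1 hu.2
        have h3 : v.1 ∈ S := hS'.symm ▸ h2
        exact v.2 h3
      have hT' : Cls (fun v w : ↥(Sᶜ) => r v.1 w.1) v = Subtype.val ⁻¹' Cls r v.1 := rfl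
      obtain ⟨E, hE⟩ := exists_E (A := A) (S := S) hT
      refine C_semi hC.base E α' _ rfl (hm v.1 g _ ?_)
      exact Ind_lift hA hρ.toRet0 (fun w => cj_quot e e' he' g w) hT E hE α' hα'
  refine step_conj e hC hF hA hL hρ hp0 ?_ hCK
  intro g hg
  obtain ⟨α, hα⟩ := exists_restr e hg
  refine C_Bg e hC hg α hα ?_
  subst hS
  refine hm w0 g α ?_
  intro b
  rw [hα]
  rw [inv_mul_cancel]
  exact one_mem _

end Pool.Agent.U68.RG
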