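import Pool.Agent.U68.RG.Step

/-!
# Descent to the quotient by the normal closure of some vertex groups
-/

set_option autoImplicit false

namespace Pool.Agent.U68.RG

open Pool.Agent.Y110.FJ
open Pool.Agent.R684.FP (IsFreeProd FbC cyc_real)
open Pool.Agent.R941.FJ (C_equiv C_le C_cyc)
open Pool.Agent.Y462.SS (Closed)

variable {C : ∀ (G : Type) [Group G], Prop}

section one

variable {V W : Type} [Group W] {Γ : SimpleGraph V} {A : V → Subgroup W} {S : Set V}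
  {ρ : W →* ↥(BS A Sᶜ)}

theorem map_BS {W' : Type} [Group W'] (f : W →* W') (A : V → Subgroup W) (T : Set V) :
    (BS A T).map f = ⨆ v ∈ T, (A v).map f := by
  rw [BS, Subgroup.map_iSup]
  exact iSup_congr fun v => Subgroup.map_iSup _ _

theorem gen_top (hA : IsGP Γ A) (S : Set V) : BS A S ⊔ BS A Sᶜ = ⊤ := by rw [BS_sup, hA.gen]

theorem fac (hA : IsGP Γ A) (hρ : Ret0 A S ρ) {T : Type} [Group T] (f : W →* T)
    (hf : ∀ b ∈ BS A S, f b = 1) (w : W) : f ((ρ w : ↥(BS A Sᶜ)) : W) = f w := by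
  have h1 : BS A S ⊔ BS A Sᶜ ≤ (f.comp ((BS A Sᶜ).subtype.comp ρ)).eqLocus f := by
    refine sup_le ?_ ?_
    · intro b hb
      show f ((ρ b : ↥(BS A Sᶜ)) : W) = f b
      rw [hρ.kill b hb, hf b hb]
      exact map_one f
    · intro h hh
      show f ((ρ h : ↥(BS A Sᶜ)) : W) = f h
      rw [show ρ h = ⟨h, hh⟩ from hρ.fix ⟨h, hh⟩]
  rw [gen_top hA] at h1
  exact h1 (Subgroup.mem_top w)

theorem exists_ret0 (hA : IsGP Γ A) (S : Set V) : ∃ ρ, Ret0 A S ρ := by
  classical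
  obtain ⟨ρ, hρ⟩ := hA.univ ↥(BS A Sᶜ)
    (fun v => if hv : v ∈ Sᶜ then Subgroup.inclusion (le_BS A hv) else 1) (by
    intro v w h a b
    by_cases hv : v ∈ Sᶜ
    · by_cases hw : w ∈ Sᶜ
      · rw [dif_pos hv, dif_pos hw]
        exact Subtype.ext (hA.comm v w h a a.2 b b.2)
      · rw [dif_neg hw, MonoidHom.one_apply, mul_one, one_mul]
    · rw [dif_neg hv, MonoidHom.one_apply, mul_one, one_mul])
  refine ⟨ρ, ⟨?_, ?_⟩⟩
  · intro b hb
    have : BS A S ≤ ρ.ker := BS_le.2 fun v hv a ha => by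
      have h1 := hρ v ⟨a, ha⟩
      rw [dif_neg (fun h : v ∈ Sᶜ => h hv)] at h1
      exact h1
    exact this hb
  · rintro ⟨h, hh⟩
    apply Subtype.ext
    refine BS_eq (A := A) (S := Sᶜ) ((BS A Sᶜ).subtype.comp ρ) (MonoidHom.id W) ?_ hh
    intro v hv a ha
    have h1 := hρ v ⟨a, ha⟩
    rw [dif_pos hv] at h1
    exact congrArg Subtype.val h1

theorem map_rho (hρ : Ret0 A S ρ) (T : Set V) :
    (BS A T).map ρ = BS (Ac A S) (Subtype.val ⁻¹' T) := by
  rw [map_BS]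
  apply le_antisymm
  · refine iSup₂_le fun v hv => ?_
    by_cases hS : v ∈ S
    · rintro _ ⟨a, ha, rfl⟩
      rw [hρ.kill a (le_BS A hS ha)]
      exact one_mem _
    · refine le_trans ?_ (le_BS (Ac A S) (v := ⟨v, hS⟩) hv)
      rintro _ ⟨a, ha, rfl⟩
      rw [Subgroup.mem_subgroupOf]
      rw [show ρ a = ⟨a, le_BS A (S := Sᶜ) hS ha⟩ from hρ.fix ⟨a, _⟩]
      exact ha
  · refine BS_le.2 fun v hv => ?_
    refine le_trans ?_ (le_iSup₂_of_le (f := fun v (_ : v ∈ T) => (A v).map ρ) v.1 hv le_rfl)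
    intro a ha
    exact ⟨a, ha, hρ.fix a⟩

/-- `σ` maps `P` to a conjugate of `Q` -/
def CE (σ : MulAut W) (P Q : Subgroup W) : Prop :=
  ∃ n : W, P.map σ.toMonoidHom = Q.map (MulAut.conj n).toMonoidHom

theorem CE_iff {σ : MulAut W} {P Q : Subgroup W} {n : W}
    (h : P.map σ.toMonoidHom = Q.map (MulAut.conj n).toMonoidHom) (b : W) :
    b ∈ P ↔ n⁻¹ * σ b * n ∈ Q := by
  constructor
  · intro hb
    have h1 : σ b ∈ Q.map (MulAut.conj n).toMonoidHom := by
      rw [← h]; exact ⟨b, hb, rfl⟩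
    obtain ⟨q, hq, hqb⟩ := h1
    have h2 : n * q * n⁻¹ = σ b := hqb
    rw [← h2]
    have h3 : n⁻¹ * (n * q * n⁻¹) * n = q := by group
    rwa [h3]
  · intro hb
    have h1 : σ b ∈ P.map σ.toMonoidHom := by
      rw [h]
      refine ⟨_, hb, ?_⟩
      show n * (n⁻¹ * σ b * n) * n⁻¹ = σ b
      group
    obtain ⟨p, hp, hpb⟩ := h1
    have : p = b := σ.injective hpb
    rwa [← this]

theorem CE_desc {σ : MulAut W} {σ' : MulAut ↥(BS A Sᶜ)} (hσ : ∀ w, σ' (ρ w) = ρ (σ w))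
    {P Q : Subgroup W} (h : CE σ P Q) : CE σ' (P.map ρ) (Q.map ρ) := by
  obtain ⟨n, hn⟩ := h
  refine ⟨ρ n, ?_⟩
  have h1 : (P.map ρ).map σ'.toMonoidHom = (P.map σ.toMonoidHom).map ρ := by
    rw [Subgroup.map_map, Subgroup.map_map]
    congr 1
    ext w
    exact congrArg Subtype.val (hσ w)
  have h2 : (Q.map ρ).map (MulAut.conj (ρ n)).toMonoidHom =
      (Q.map (MulAut.conj n).toMonoidHom).map ρ := by
    rw [Subgroup.map_map, Subgroup.map_map]
    congr 1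
    ext w
    show ((ρ n * ρ w * (ρ n)⁻¹ : ↥(BS A Sᶜ)) : W) = ((ρ (n * w * n⁻¹) : ↥(BS A Sᶜ)) : W)
    rw [map_mul, map_mul, map_inv]
  rw [h1, h2, hn]

/-- the normal closure of vertex groups -/
def NC (A : V → Subgroup W) (T : Set V) : Subgroup W :=
  Subgroup.normalClosure (⋃ u ∈ T, (A u : Set W))

instance (A : V → Subgroup W) (T : Set V) : (NC A T).Normal := Subgroup.normalClosure_normal

theorem le_NC {u : V} {T : Set V} (h : u ∈ T) : A u ≤ NC A T := fun _ ha =>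
  Subgroup.subset_normalClosure (Set.mem_biUnion h ha)

theorem NC_le {T : Set V} {K : Subgroup W} [K.Normal] (h : ∀ u ∈ T, A u ≤ K) : NC A T ≤ K :=
  Subgroup.normalClosure_le_normal (Set.iUnion₂_subset fun u hu a ha => h u hu ha)

theorem BS_le_NC {T : Set V} : BS A T ≤ NC A T := BS_le.2 fun _ hv => le_NC hv

theorem ker_eq_NC (hA : IsGP Γ A) (hρ : Ret0 A S ρ) {w : W} : ρ w = 1 ↔ w ∈ NC A S := by
  constructor
  · intro h
    have h1 := fac hA hρ (QuotientGroup.mk' (NC A S))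
      (fun b hb => (QuotientGroup.eq_one_iff b).2 (BS_le_NC hb)) w
    rw [h] at h1
    exact (QuotientGroup.eq_one_iff w).1 (by rw [← QuotientGroup.mk'_apply, ← h1]; exact map_one _)
  · intro h
    have h1 : NC A S ≤ ρ.ker := NC_le fun u hu a ha => hρ.kill a (le_BS A hu ha)
    exact h1 h

/-- `σ` induces `α` on the subgroup generated by the vertex groups in `T` modulo the normal closure
of the other vertex groups -/
def Ind (A : V → Subgroup W) (T : Set V) (σ : MulAut W) (α : MulAut ↥(BS A T)) : Prop :=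
  ∀ b : ↥(BS A T), ((α b : ↥(BS A T)) : W)⁻¹ * σ b ∈ NC A Tᶜ

theorem map_sub {T : Set V} (hT : T ⊆ Sᶜ) :
    (BS (Ac A S) (Subtype.val ⁻¹' T)).map (BS A Sᶜ).subtype = BS A T := by
  rw [map_BS]
  apply le_antisymm
  · refine iSup₂_le fun v hv => ?_
    rw [Subgroup.map_subgroupOf_eq_of_le (le_BS A v.2)]
    exact le_BS A hv
  · refine BS_le.2 fun v hv => ?_
    refine le_trans ?_ (le_iSup₂_of_le (f := fun (v : ↥(Sᶜ)) (_ : v ∈ Subtype.val ⁻¹' T) =>
      (Ac A S v).map (BS A Sᶜ).subtype) ⟨v, hT hv⟩ hv le_rfl)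
    rw [Subgroup.map_subgroupOf_eq_of_le (le_BS A (hT hv))]

theorem mem_sub {T : Set V} (hT : T ⊆ Sᶜ) (x : ↥(BS A Sᶜ)) :
    x ∈ BS (Ac A S) (Subtype.val ⁻¹' T) ↔ x.1 ∈ BS A T := by
  rw [← map_sub (A := A) (S := S) hT]
  constructor
  · intro h
    exact Subgroup.mem_map_of_mem (BS A Sᶜ).subtype h
  · intro h
    obtain ⟨y, hy, hyx⟩ := Subgroup.mem_map.1 h
    have : y = x := Subtype.ext hyx
    rwa [← this]

theorem exists_E {T : Set V} (hT : T ⊆ Sᶜ) :
    ∃ E : ↥(BS (Ac A S) (Subtype.val ⁻¹' T)) ≃* ↥(BS A T), ∀ x, (E x : W) = ((x : ↥(BS A Sᶜ)) : W) := by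
  refine ⟨((BS (Ac A S) (Subtype.val ⁻¹' T)).equivMapOfInjective (BS A Sᶜ).subtype
    (BS A Sᶜ).subtype_injective).trans (MulEquiv.subgroupCongr (map_sub hT)), fun x => ?_⟩
  rw [MulEquiv.trans_apply, MulEquiv.subgroupCongr_apply, Subgroup.coe_equivMapOfInjective_apply,
    Subgroup.subtype_apply]

theorem NC_desc (hA : IsGP Γ A) (hρ : Ret0 A S ρ) {T : Set V} (hT : T ⊆ Sᶜ) (y : W)
    (h : ρ y ∈ NC (Ac A S) (Subtype.val ⁻¹' T)ᶜ) : y ∈ NC A Tᶜ := by
  have h0 : S ⊆ Tᶜ := fun v hv hvT => hT hvT hv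
  have h4 := fac hA hρ (QuotientGroup.mk' (NC A Tᶜ))
    (fun b hb => (QuotientGroup.eq_one_iff b).2 (BS_le_NC (BS_mono A h0 hb))) y
  have h5 : NC (Ac A S) (Subtype.val ⁻¹' T)ᶜ ≤
      ((QuotientGroup.mk' (NC A Tᶜ)).comp (BS A Sᶜ).subtype).ker := by
    refine NC_le fun u hu a ha => ?_
    have h6 : a.1 ∈ A u.1 := Subgroup.mem_subgroupOf.1 ha
    have h7 : u.1 ∈ Tᶜ := hu
    have h8 : a.1 ∈ NC A Tᶜ := le_NC h7 h6
    rw [MonoidHom.mem_ker, MonoidHom.comp_apply, Subgroup.subtype_apply]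
    exact (QuotientGroup.eq_one_iff _).2 h8
  have h6 := h5 h
  rw [MonoidHom.mem_ker, MonoidHom.comp_apply, Subgroup.subtype_apply] at h6
  rw [h6] at h4
  exact (QuotientGroup.eq_one_iff _).1 h4.symm

theorem Ind_lift (hA : IsGP Γ A) (hρ : Ret0 A S ρ) {σ : MulAut W} {σ' : MulAut ↥(BS A Sᶜ)}
    (hσ : ∀ w, σ' (ρ w) = ρ (σ w)) {T : Set V} (hT : T ⊆ Sᶜ)
    (E : ↥(BS (Ac A S) (Subtype.val ⁻¹' T)) ≃* ↥(BS A T))
    (hE : ∀ x, (E x : W) = ((x : ↥(BS A Sᶜ)) : W))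
    (α' : MulAut ↥(BS (Ac A S) (Subtype.val ⁻¹' T)))
    (h : Ind (Ac A S) (Subtype.val ⁻¹' T) σ' α') :
    Ind A T σ ((E.symm.trans α').trans E) := by
  intro b
  obtain ⟨b', rfl⟩ := E.surjective b
  have h2 : ((E.symm.trans α').trans E) (E b') = E (α' b') := by
    rw [MulEquiv.trans_apply, MulEquiv.trans_apply, E.symm_apply_apply]
  rw [h2]
  have h3 : ρ (((E (α' b') : ↥(BS A T)) : W)⁻¹ * σ ((E b' : ↥(BS A T)) : W)) =
      ((α' b').1)⁻¹ * σ' b'.1 := by
    rw [map_mul, map_inv, hE, hρ.fix, hE, ← hσ, hρ.fix]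
  refine NC_desc hA hρ hT _ ?_
  rw [h3]
  exact h b'

end one

/-! ### mapping tori -/

section tor

theorem C_semi (hC : Closed C) {B B' : Type} [Group B] [Group B'] (E : B ≃* B') (α : MulAut B)
    (β : MulAut B') (h : β = (E.symm.trans α).trans E)
    (hc : C (B' ⋊[zpowersHom (MulAut B') β] Multiplicative ℤ)) :
    C (B ⋊[zpowersHom (MulAut B) α] Multiplicative ℤ) := by
  have h1 : ∀ n : ℤ, (MulAut.congr E) (α ^ n) = β ^ n := by
    intro n
    rw [map_zpow, h]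
    rfl
  have h2 : ∀ g : Multiplicative ℤ, E.toMonoidHom.comp ((zpowersHom (MulAut B) α) g).toMonoidHom =
      ((zpowersHom (MulAut B') β) g).toMonoidHom.comp E.toMonoidHom := by
    intro g
    ext b
    show E ((α ^ g.toAdd) b) = (β ^ g.toAdd) (E b)
    rw [← h1]
    show E ((α ^ g.toAdd) b) = E ((α ^ g.toAdd) (E.symm (E b)))
    rw [E.symm_apply_apply]
  refine hC.of_injective _ _ (SemidirectProduct.map E.toMonoidHom (MonoidHom.id _) h2) ?_ hc
  intro x y hxy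
  have h3 := congrArg SemidirectProduct.left hxy
  have h4 := congrArg SemidirectProduct.right hxy
  rw [SemidirectProduct.map_left, SemidirectProduct.map_left] at h3
  rw [SemidirectProduct.map_right, SemidirectProduct.map_right] at h4
  exact SemidirectProduct.ext (E.injective h3) h4

variable {V W G : Type} [Group W] [Group G] {N : Subgroup G} [hN : N.Normal] (e : W ≃* N)
variable {A : V → Subgroup W} {S : Set V}

theorem exists_restr {g : G} (hg : ∀ x, x ∈ Bg e A S ↔ g * x * g⁻¹ ∈ Bg e A S) :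
    ∃ α : MulAut ↥(BS A S), ∀ b, ((α b : ↥(BS A S)) : W) = cj e g b := by
  have h1 : ∀ b : W, b ∈ BS A S ↔ cj e g b ∈ BS A S := by
    intro b
    rw [← e_mem_Bg e, hg, ← e_mem_Bg e, e_cj]
  refine ⟨{ toFun := fun b => ⟨cj e g b, (h1 b).1 b.2⟩
            invFun := fun b => ⟨(cj e g)⁻¹ b, by
              rw [h1]
              have : cj e g ((cj e g)⁻¹ (b : W)) = b := MulAut.apply_inv_self _ _ _
              rw [this]
              exact b.2⟩
            left_inv := fun b => Subtype.ext (MulAut.inv_apply_self _ _ _)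
            right_inv := fun b => Subtype.ext (MulAut.apply_inv_self _ _ _)
            map_mul' := fun a b => Subtype.ext (map_mul _ _ _) }, fun b => rfl⟩

theorem C_Bg (hC : ClosedE C) {g : G} (hg : ∀ x, x ∈ Bg e A S ↔ g * x * g⁻¹ ∈ Bg e A S)
    (α : MulAut ↥(BS A S)) (hα : ∀ b, ((α b : ↥(BS A S)) : W) = cj e g b)
    (hc : C (↥(BS A S) ⋊[zpowersHom (MulAut ↥(BS A S)) α] Multiplicative ℤ)) :
    C ↥(Bg e A S ⊔ Subgroup.zpowers g) := by
  obtain ⟨E, hE⟩ : ∃ E : ↥(BS A S) ≃* ↥(Bg e A S), E = (BS A S).equivMapOfInjective _ (sub_inj e) :=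
    ⟨_, rfl⟩
  have hE1 : ∀ b : ↥(BS A S), (E b : G) = (e (b : W) : N) := by
    intro b
    rw [hE]
    rfl
  refine cyc_real hC (Bg e A S) g hg
    ((SemidirectProduct.inl (φ := zpowersHom (MulAut ↥(BS A S)) α)).comp E.symm.toMonoidHom) ?_
    (SemidirectProduct.inr (Multiplicative.ofAdd 1)) ?_ hc
  · exact SemidirectProduct.inl_injective.comp E.symm.injective
  · intro x y hxy
    have h1 : E.symm y = α (E.symm x) := by
      apply E.injective
      apply Subtype.ext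
      rw [E.apply_symm_apply, hE1, hα, e_cj, ← hE1, E.apply_symm_apply, hxy]
    show SemidirectProduct.inl (E.symm y) = SemidirectProduct.inr (Multiplicative.ofAdd 1) *
      SemidirectProduct.inl (E.symm x) * (SemidirectProduct.inr (Multiplicative.ofAdd 1))⁻¹
    rw [← map_inv, ← SemidirectProduct.inl_aut, zpowersHom_apply, toAdd_ofAdd, zpow_one, h1]

end tor

end Pool.Agent.U68.RG
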