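import Pool.Agent.U68.RG.Decomp

/-!
# The kernel of the retraction as a free product of conjugates
-/

set_option autoImplicit false

namespace Pool.Agent.U68.RG

open Pool.Agent.R684.FP (IsFreeProd)

variable {V W : Type} [Group W]

variable {Γ : SimpleGraph V} {A : V → Subgroup W} {S L : Set V}

/-- the retraction which kills the vertex groups in `S` -/
structure Ret0 (A : V → Subgroup W) (S : Set V) (ρ : W →* ↥(BS A Sᶜ)) : Prop where
  kill : ∀ b ∈ BS A S, ρ b = 1
  fix : ∀ h : ↥(BS A Sᶜ), ρ h = h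

/-- the retraction which kills the vertex groups in `S` and the structure of its kernel -/
structure Ret (A : V → Subgroup W) (S L : Set V) (ρ : W →* ↥(BS A Sᶜ)) : Prop
    extends Ret0 A S ρ where
  free : IsFreeProd ρ.ker (Cj A S L)

theorem exists_ret (hA : IsGP Γ A) (hL : Link Γ S L) : ∃ ρ, Ret A S L ρ := by
  obtain ⟨Φ, hΦ1, hΦ2⟩ := exists_Phi hA hL
  let ρ : W →* ↥(BS A Sᶜ) := SemidirectProduct.rightHom.comp Φ
  have hρ : ∀ w, ρ w = (Φ w).right := fun w => rfl
  -- the inverse
  let Θ : TT A S L →* W := SemidirectProduct.lift (Psi A S L) (BS A Sᶜ).subtype (by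
    intro h
    refine MonoidHom.ext fun a => ?_
    exact Psi_act hA hL h a)
  have hΘ : ∀ t : TT A S L, Θ t = Psi A S L t.left * (t.right : W) := fun t => rfl
  have hx0 : ∀ (b : W) (hb : b ∈ BS A S), Psi A S L (ofc (x0 A S L) ⟨b, hb⟩) = b := by
    intro b hb
    rw [Psi_of]
    have := conj_out (L := L) hA hL 1 hb
    show ((QuotientGroup.mk 1 : XX A S L).out : W) * b * ((QuotientGroup.mk 1 : XX A S L).out : W)⁻¹ = b
    rw [this]
    simp
  have hΘΦ : ∀ w : W, Θ (Φ w) = w := by
    intro w
    have h1 : w ∈ ⨆ v, A v := by rw [hA.gen]; trivial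
    rw [← BS_sup A S] at h1
    have h2 : BS A S ⊔ BS A Sᶜ ≤ (Θ.comp Φ).eqLocus (MonoidHom.id W) := by
      refine sup_le ?_ ?_
      · intro b hb
        show Θ (Φ b) = b
        rw [show Φ b = _ from hΦ1 ⟨b, hb⟩, hΘ]
        simp only [SemidirectProduct.left_inl, SemidirectProduct.right_inl, OneMemClass.coe_one,
          mul_one]
        exact hx0 b hb
      · intro h hh
        show Θ (Φ h) = h
        rw [show Φ h = _ from hΦ2 ⟨h, hh⟩, hΘ]
        simp only [SemidirectProduct.left_inr, SemidirectProduct.right_inr, map_one, one_mul]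
    exact h2 h1
  have hker : ∀ w, ρ w = 1 → Psi A S L (Φ w).left = w := by
    intro w hw
    have h1 := hΘΦ w
    rw [hΘ, ← hρ, hw] at h1
    simpa using h1
  have hΦΨ : ∀ a, Φ (Psi A S L a) = SemidirectProduct.inl a := by
    have : Φ.comp (Psi A S L) = SemidirectProduct.inl := by
      refine cp_ext _ _ fun q b => ?_
      rw [MonoidHom.comp_apply, Psi_of, map_mul, map_mul, map_inv, hΦ2, hΦ1]
      apply SemidirectProduct.ext
      · simp only [SemidirectProduct.mul_left, SemidirectProduct.left_inl,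
          SemidirectProduct.right_inr, SemidirectProduct.left_inr, SemidirectProduct.mul_right,
          SemidirectProduct.inv_left, map_one, one_mul, inv_one, mul_one]
        rw [cpAct_of]
        congr 2
        show (QuotientGroup.mk (q.out * 1) : XX A S L) = q
        rw [mul_one]
        exact QuotientGroup.out_eq' q
      · simp only [SemidirectProduct.mul_right, SemidirectProduct.right_inl,
          SemidirectProduct.right_inr, SemidirectProduct.inv_right, mul_one, mul_inv_cancel]
    exact fun a => DFunLike.congr_fun this a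
  have hinj : Function.Injective (Psi A S L) := by
    intro a b hab
    have h1 := hΦΨ a
    rw [hab, hΦΨ b] at h1
    exact (SemidirectProduct.inl_injective h1).symm
  have hrange : (Psi A S L).range = ρ.ker := by
    apply le_antisymm
    · rintro _ ⟨a, rfl⟩
      rw [MonoidHom.mem_ker, hρ, hΦΨ, SemidirectProduct.right_inl]
    · intro w hw
      exact ⟨_, hker w hw⟩
  refine ⟨ρ, ⟨⟨fun b hb => ?_, fun h => ?_⟩, ⟨?_, ?_⟩⟩⟩
  · rw [hρ, show Φ b = _ from hΦ1 ⟨b, hb⟩, SemidirectProduct.right_inl]
  · rw [hρ, hΦ2, SemidirectProduct.right_inr]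
  · rw [← hrange]
    apply le_antisymm
    · refine iSup_le fun q => ?_
      intro x hx
      rw [mem_Cj] at hx
      refine ⟨ofc q ⟨_, hx⟩, ?_⟩
      rw [Psi_of]
      group
    · rintro _ ⟨a, rfl⟩
      induction a using Monoid.CoprodI.induction_on with
      | one => rw [map_one]; exact one_mem _
      | of i m =>
        refine le_iSup (Cj A S L) i ?_
        rw [mem_Cj]
        have : Psi A S L (Monoid.CoprodI.of m) = (i.out : W) * m * (i.out : W)⁻¹ := Psi_of i m
        rw [this]
        have h2 : (i.out : W)⁻¹ * ((i.out : W) * m * (i.out : W)⁻¹) * (i.out : W) = m := by group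
        rw [h2]
        exact m.2
      | mul x y hx hy => rw [map_mul]; exact mul_mem hx hy
  · -- injectivity
    let θ : Monoid.CoprodI (fun q => ↥(Cj A S L q)) →*
        Monoid.CoprodI (fun _ : XX A S L => ↥(BS A S)) :=
      Monoid.CoprodI.lift fun q => (ofc q).comp
        (((MulAut.conj (q.out : W)⁻¹).toMonoidHom.comp (Cj A S L q).subtype).codRestrict (BS A S)
          fun x => by
            have h1 := (mem_Cj (A := A) (S := S) (L := L)).1 x.2
            show (q.out : W)⁻¹ * x * (q.out : W)⁻¹⁻¹ ∈ BS A S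
            rw [inv_inv]
            exact h1)
    let θ' : Monoid.CoprodI (fun _ : XX A S L => ↥(BS A S)) →*
        Monoid.CoprodI (fun q => ↥(Cj A S L q)) :=
      Monoid.CoprodI.lift fun q => (Monoid.CoprodI.of (M := fun q => ↥(Cj A S L q)) (i := q)).comp
        (((MulAut.conj (q.out : W)).toMonoidHom.comp (BS A S).subtype).codRestrict (Cj A S L q)
          fun x => ⟨x, x.2, rfl⟩)
    have h1 : θ'.comp θ = MonoidHom.id _ := by
      refine Monoid.CoprodI.ext_hom _ _ fun q => MonoidHom.ext fun x => ?_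
      simp only [θ, θ', MonoidHom.comp_apply, Monoid.CoprodI.lift_of, MonoidHom.id_apply]
      congr 1
      apply Subtype.ext
      show (q.out : W) * ((q.out : W)⁻¹ * x * (q.out : W)⁻¹⁻¹) * (q.out : W)⁻¹ = x
      group
    have h2 : (Monoid.CoprodI.lift fun q => (Cj A S L q).subtype) = (Psi A S L).comp θ := by
      refine Monoid.CoprodI.ext_hom _ _ fun q => MonoidHom.ext fun x => ?_
      simp only [θ, MonoidHom.comp_apply, Monoid.CoprodI.lift_of]
      rw [Psi_of]
      show (x : W) = (q.out : W) * ((q.out : W)⁻¹ * x * (q.out : W)⁻¹⁻¹) * (q.out : W)⁻¹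
      group
    have h3 : Function.Injective θ := by
      intro a b hab
      have h4 := congrArg θ' hab
      rw [← MonoidHom.comp_apply, ← MonoidHom.comp_apply, h1] at h4
      exact h4
    have h4 : Function.Injective (Monoid.CoprodI.lift fun q => (Cj A S L q).subtype) := by
      rw [h2]
      exact hinj.comp h3
    exact h4

/-! ### the remaining vertices -/

/-- the vertex groups outside `S` as subgroups of `BS A Sᶜ` -/
abbrev Ac (A : V → Subgroup W) (S : Set V) (v : ↥(Sᶜ)) : Subgroup ↥(BS A Sᶜ) :=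
  (A v.1).subgroupOf (BS A Sᶜ)

theorem IsGP.compl (hA : IsGP Γ A) (S : Set V) : IsGP (Γ.induce Sᶜ) (Ac A S) := by
  classical
  refine ⟨?_, ?_, ?_⟩
  · have h1 : (⨆ v : ↥(Sᶜ), Ac A S v).map (BS A Sᶜ).subtype = (⊤ : Subgroup ↥(BS A Sᶜ)).map (BS A Sᶜ).subtype := by
      rw [Subgroup.map_iSup, ← MonoidHom.range_eq_map, Subgroup.range_subtype]
      apply le_antisymm
      · refine iSup_le fun v => ?_
        rw [Subgroup.map_subgroupOf_eq_of_le (le_BS A v.2)]
        exact le_BS A v.2
      · refine BS_le.2 fun v hv => ?_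
        refine le_trans ?_ (le_iSup (fun v : ↥(Sᶜ) => (Ac A S v).map (BS A Sᶜ).subtype) ⟨v, hv⟩)
        rw [Subgroup.map_subgroupOf_eq_of_le (le_BS A hv)]
    exact Subgroup.map_injective (BS A Sᶜ).subtype_injective h1
  · intro v w h a ha b hb
    exact Subtype.ext (hA.comm v.1 w.1 h a ha b hb)
  · intro T _ f hf
    let F : ∀ v, A v →* T := fun v =>
      if hv : v ∈ Sᶜ then (f ⟨v, hv⟩).comp ((Subgroup.inclusion (le_BS A hv)).codRestrict
        (Ac A S ⟨v, hv⟩) fun x => Subgroup.mem_subgroupOf.2 x.2) else 1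
    have F1 : ∀ v (hv : v ∈ Sᶜ) (a : A v), F v a = f ⟨v, hv⟩ ⟨⟨a, le_BS A hv a.2⟩, a.2⟩ := by
      intro v hv a
      simp only [F, dif_pos hv]
      rfl
    have F2 : ∀ v (hv : v ∉ Sᶜ) (a : A v), F v a = 1 := by
      intro v hv a
      simp only [F, dif_neg hv]
      rfl
    obtain ⟨h, hh⟩ := hA.univ T F (by
      intro v w hvw a b
      by_cases hv : v ∈ Sᶜ
      · by_cases hw : w ∈ Sᶜ
        · rw [F1 v hv, F1 w hw]
          exact hf ⟨v, hv⟩ ⟨w, hw⟩ hvw _ _
        · rw [F2 w hw, mul_one, one_mul]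
      · rw [F2 v hv, mul_one, one_mul])
    refine ⟨h.comp (BS A Sᶜ).subtype, fun v a => ?_⟩
    have h1 := hh v.1 ⟨(a : ↥(BS A Sᶜ)), a.2⟩
    rw [F1 v.1 v.2] at h1
    exact h1

end Pool.Agent.U68.RG
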