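import Pool.Agent.U68.RG.Prm

/-!
# Infinite graphs: reduction to finite sets of vertices
-/

set_option autoImplicit false

namespace Pool.Agent.U68.RG

open Pool.Agent.Y110.FJ
open Pool.Agent.R684.FP (IsFreeProd FbC cyc_real)
open Pool.Agent.R941.FJ (C_equiv C_le C_cyc)
open Pool.Agent.R942.FJ (Detected main_detected)
open Pool.Agent.Y462.SS (Closed)

variable {C : ∀ (G : Type) [Group G], Prop}

section supp

variable {V W : Type} [Group W] {Γ : SimpleGraph V} {A : V → Subgroup W}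

theorem exists_supp (hA : IsGP Γ A) (w : W) : ∃ E : Set V, E.Finite ∧ w ∈ BS A E := by
  have hw : w ∈ ⨆ v, A v := by rw [hA.gen]; trivial
  refine Subgroup.iSup_induction A (C := fun w => ∃ E : Set V, E.Finite ∧ w ∈ BS A E) hw ?_ ?_ ?_
  · intro v a ha
    exact ⟨{v}, Set.finite_singleton v, le_BS A (Set.mem_singleton v) ha⟩
  · exact ⟨∅, Set.finite_empty, one_mem _⟩
  · rintro x y ⟨E, hE, hx⟩ ⟨F, hF, hy⟩
    exact ⟨E ∪ F, hE.union hF, mul_mem (BS_mono A Set.subset_union_left hx)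
      (BS_mono A Set.subset_union_right hy)⟩

theorem exists_supps (hA : IsGP Γ A) {X : Set W} (hX : X.Finite) :
    ∃ E : Set V, E.Finite ∧ X ⊆ BS A E := by
  choose F hF1 hF2 using exists_supp hA
  exact ⟨⋃ x ∈ X, F x, hX.biUnion fun x _ => hF1 x, fun x hx =>
    BS_mono A (Set.subset_biUnion_of_mem hx) (hF2 x)⟩

theorem Strat.induce {r : V → V → Prop} (hr : Strat Γ r) (S : Set V) :
    Strat (Γ.induce S) (fun v w => r v.1 w.1) :=
  ⟨fun v => hr.refl v.1, fun u v w => hr.trans u.1 v.1 w.1,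
    fun s s' h h' v hv => hr.twin s.1 s'.1 h h' v.1 hv⟩

end supp

/-- the condition for one element and a finite set of vertices -/
structure Good {V W : Type} [Group W] (A : V → Subgroup W) (r : V → V → Prop) (V1 : Set V)
    (σ : MulAut W) : Prop where
  ker : ∀ v, v ∉ V1 → ∀ a ∈ A v, σ a ∈ NC A V1ᶜ
  prm : ∀ v ∈ V1, ∃ v' ∈ V1, CE σ (BS A {w | r v w}) (BS A {w | r v' w})

theorem main_loc (hC : ClosedE C) (hF : FbC C) {V W G : Type} [Group W]
    [Group G] {Γ : SimpleGraph V} {A : V → Subgroup W} {r : V → V → Prop} {N : Subgroup G}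
    [N.Normal] (e : W ≃* N) (hA : IsGP Γ A) (hr : Strat Γ r)
    (hloc : ∀ g : G, ∀ E : Set V, E.Finite → ∃ V1 : Set V, V1.Finite ∧ E ⊆ V1 ∧
      ∀ h ∈ N ⊔ Subgroup.zpowers g, Good A r V1 (cj e h))
    (hm : ∀ (T : Set V), T.Finite → (∀ u ∈ T, ∀ u' ∈ T, r u u') → ∀ (g : G)
      (α : MulAut ↥(BS A T)), Ind A T (cj e g) α →
      C (↥(BS A T) ⋊[zpowersHom (MulAut ↥(BS A T)) α] Multiplicative ℤ))
    (hQ : C (G ⧸ N)) : C G := by
  refine main_detected hC N (fun g => ?_) hQ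
  intro E0 hE0 hE0N
  obtain ⟨E, hE, hEX⟩ := exists_supps hA (X := (fun w => ((e w : N) : G)) ⁻¹' E0)
    (hE0.preimage (N.subtype_injective.comp e.injective).injOn)
  obtain ⟨V1, hV1, hEV, hgood⟩ := hloc g E hE
  obtain ⟨S, hS⟩ : ∃ S : Set V, S = V1ᶜ := ⟨_, rfl⟩
  have hSc : Sᶜ = V1 := by rw [hS, compl_compl]
  have hfin : Finite ↥(Sᶜ) := by rw [hSc]; exact hV1
  obtain ⟨K, hK⟩ : ∃ K : Subgroup G, K = N ⊔ Subgroup.zpowers g := ⟨_, rfl⟩
  rw [← hK] at hgood ⊢
  have hNK : N ≤ K := by rw [hK]; exact le_sup_left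
  obtain ⟨eK, heK, hc⟩ := exists_sub e hNK
  have hn : (N.subgroupOf K).Normal := inferInstance
  obtain ⟨ρ, hρ⟩ := exists_ret0 hA S
  have hker : ∀ (h : K) (w : W), ρ w = 1 → ρ (cj eK h w) = 1 := by
    intro h w hw
    rw [ker_eq_NC hA hρ] at hw ⊢
    rw [hc]
    have h1 : NC A S ≤ (NC A S).comap (cj e (h : G)).toMonoidHom := by
      have : ((NC A S).comap (cj e (h : G)).toMonoidHom).Normal := inferInstance
      refine NC_le fun u hu a ha => ?_
      have h2 : u ∉ V1 := by rw [hS] at hu; exact hu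
      have h3 := (hgood h.1 h.2).ker u h2 a ha
      rw [← hS] at h3
      exact h3
    exact h1 hw
  have hKn : (KK eK ρ).Normal := KK_normal eK hker
  have hNn : ((N.subgroupOf K).map (QuotientGroup.mk' (KK eK ρ))).Normal :=
    Subgroup.Normal.map inferInstance _ (QuotientGroup.mk'_surjective _)
  obtain ⟨e', he'⟩ := exists_e' eK hρ
  have hQK : C (K ⧸ N.subgroupOf K) := by
    refine Pool.Agent.R941.FJ.quot hC.base K ?_
    have h1 : K.map (QuotientGroup.mk' N) = Subgroup.zpowers (QuotientGroup.mk' N g) := by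
      rw [hK, Subgroup.map_sup, QuotientGroup.map_mk'_self, bot_sup_eq, MonoidHom.map_zpowers]
    rw [h1]
    exact C_cyc hC.base _
  have hmain : C (K ⧸ KK eK ρ) := by
    refine main_prm hC hF e' (hA.compl S) (hr.induce Sᶜ) ?_ ?_ (C_quot eK hC hQK)
    · intro v g'
      obtain ⟨h, rfl⟩ := QuotientGroup.mk'_surjective _ g'
      have hv : v.1 ∈ V1 := hSc.le v.2
      obtain ⟨v', hv', hCE⟩ := (hgood h.1 h.2).prm v.1 hv
      rw [← hc] at hCE
      have h1 := CE_desc (ρ := ρ) (σ := cj eK h) (σ' := cj e' (QuotientGroup.mk' (KK eK ρ) h))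
        (fun w => cj_quot eK e' he' h w) hCE
      rw [map_rho hρ, map_rho hρ] at h1
      exact ⟨⟨v', by rw [hSc]; exact hv'⟩, h1⟩
    · intro v g' 
      obtain ⟨h, rfl⟩ := QuotientGroup.mk'_surjective _ g'
      have key : ∀ T' : Set ↥(Sᶜ), T' = Subtype.val ⁻¹' (Cls r v.1 ∩ Sᶜ) →
          ∀ α' : MulAut ↥(BS (Ac A S) T'), Ind (Ac A S) T'
            (cj e' (QuotientGroup.mk' (KK eK ρ) h)) α' →
          C (↥(BS (Ac A S) T') ⋊[zpowersHom (MulAut ↥(BS (Ac A S) T')) α'] Multiplicative ℤ) := by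
        rintro _ rfl α' hα'
        obtain ⟨E, hE⟩ := exists_E (A := A) (S := S) (T := Cls r v.1 ∩ Sᶜ) Set.inter_subset_right
        refine C_semi hC.base E α' _ rfl (hm _ ?_ ?_ h.1 _ ?_)
        · exact hV1.subset (Set.inter_subset_right.trans hSc.le)
        · intro u hu u' hu'
          exact hr.trans _ _ _ hu.1.2 hu'.1.1
        · rw [← hc]
          exact Ind_lift hA hρ (fun w => cj_quot eK e' he' h w) Set.inter_subset_right E hE α' hα'
      refine key _ ?_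
      ext u
      exact ⟨fun hu => ⟨hu, u.2⟩, fun hu => hu.1⟩
  refine ⟨K ⧸ KK eK ρ, inferInstance, QuotientGroup.mk' (KK eK ρ), hmain, ?_⟩
  intro x hx hx1
  have h1 : x ∈ KK eK ρ := (QuotientGroup.eq_one_iff x).1 hx1
  obtain ⟨w, hw1, hw2⟩ := h1
  have hw3 : ((e w : N) : G) = (x : G) := by
    rw [← heK]
    exact congrArg Subtype.val hw2
  have h2 : Subgroup.closure E0 ≤ (BS A E).map (N.subtype.comp e.toMonoidHom) := by
    rw [Subgroup.closure_le]
    intro y hy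
    refine ⟨e.symm ⟨y, hE0N hy⟩, hEX ?_, ?_⟩
    · show ((e (e.symm ⟨y, hE0N hy⟩) : N) : G) ∈ E0
      rw [e.apply_symm_apply]
      exact hy
    · show ((e (e.symm ⟨y, hE0N hy⟩) : N) : G) = y
      rw [e.apply_symm_apply]
  obtain ⟨w', hw'1, hw'2⟩ := h2 hx
  have h3 : w' = w := sub_inj e (hw'2.trans hw3.symm)
  rw [h3] at hw'1
  have h4 : w ∈ BS A Sᶜ := by rw [hSc]; exact BS_mono A hEV hw'1
  have h5 : ρ w = ⟨w, h4⟩ := hρ.fix ⟨w, h4⟩
  have h6 : w = 1 := by
    have h7 : ρ w = 1 := hw1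
    rw [h5] at h7
    exact congrArg Subtype.val h7
  apply Subtype.ext
  rw [← hw3, h6, map_one]
  rfl

end Pool.Agent.U68.RG
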