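import Pool.Agent.U68.RG.Fin

/-!
# Permutations of the conjugacy classes
-/

set_option autoImplicit false

namespace Pool.Agent.U68.RG

open Pool.Agent.Y110.FJ
open Pool.Agent.R684.FP (IsFreeProd FbC cyc_real)
open Pool.Agent.R941.FJ (C_equiv C_le C_cyc)
open Pool.Agent.Y462.SS (Closed)

variable {C : ∀ (G : Type) [Group G], Prop}

section fi

variable {W G : Type} [Group W] [Group G] {N : Subgroup G} [hN : N.Normal] (e : W ≃* N)

/-- the set of the conjugates of a subgroup -/
def cc (P : Subgroup W) : Set (Subgroup W) := {Q | ∃ n : W, Q = P.map (MulAut.conj n).toMonoidHom}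

theorem map_one_aut (Q : Subgroup W) : Q.map (1 : MulAut W).toMonoidHom = Q := Subgroup.map_id Q

theorem map_mul_aut (Q : Subgroup W) (a b : MulAut W) : Q.map (a * b).toMonoidHom =
    (Q.map b.toMonoidHom).map a.toMonoidHom := by
  rw [Subgroup.map_map]
  rfl

theorem aut_conj (a : MulAut W) (n : W) : a * MulAut.conj n = MulAut.conj (a n) * a := by
  ext w
  rw [MulAut.mul_apply, MulAut.mul_apply, MulAut.conj_apply, MulAut.conj_apply, map_mul, map_mul,
    map_inv]

/-- the action on sets of subgroups -/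
def ac (e : W ≃* N) : MulAction G (Set (Subgroup W)) where
  smul g X := (fun Q => Q.map (cj e g).toMonoidHom) '' X
  one_smul X := by
    show (fun Q : Subgroup W => Q.map (cj e (1 : G)).toMonoidHom) '' X = X
    rw [cj_one]
    simp only [map_one_aut]
    exact Set.image_id' X
  mul_smul g h X := by
    show (fun Q : Subgroup W => Q.map (cj e (g * h)).toMonoidHom) '' X =
      (fun Q : Subgroup W => Q.map (cj e g).toMonoidHom) ''
        ((fun Q : Subgroup W => Q.map (cj e h).toMonoidHom) '' X)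
    rw [Set.image_image, cj_mul]
    simp only [map_mul_aut]

theorem ac_cc {g : G} {P Q : Subgroup W} (h : CE (cj e g) P Q) :
    (ac e).smul g (cc P) = cc Q := by
  obtain ⟨m, hm⟩ := h
  show (fun Q : Subgroup W => Q.map (cj e g).toMonoidHom) '' (cc P) = cc Q
  ext R
  constructor
  · rintro ⟨_, ⟨n, rfl⟩, rfl⟩
    refine ⟨cj e g n * m, ?_⟩
    show (P.map (MulAut.conj n).toMonoidHom).map (cj e g).toMonoidHom = _
    rw [← map_mul_aut, aut_conj, map_mul_aut, hm, ← map_mul_aut, ← map_mul]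
  · rintro ⟨n, rfl⟩
    refine ⟨P.map (MulAut.conj ((cj e g)⁻¹ (n * m⁻¹))).toMonoidHom, ⟨_, rfl⟩, ?_⟩
    show (P.map (MulAut.conj ((cj e g)⁻¹ (n * m⁻¹))).toMonoidHom).map (cj e g).toMonoidHom = _
    rw [← map_mul_aut, aut_conj, map_mul_aut, hm, ← map_mul_aut, ← map_mul,
      MulAut.apply_inv_self, inv_mul_cancel_right]

theorem cc_mem {P : Subgroup W} : P ∈ cc P := ⟨1, by rw [map_one]; exact (map_one_aut P).symm⟩

theorem CE_of_stab {g : G} {P : Subgroup W} (h : (ac e).smul g (cc P) = cc P) :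
    CE (cj e g) P P := by
  have h1 : P.map (cj e g).toMonoidHom ∈ cc P := by
    rw [← h]
    exact ⟨P, cc_mem, rfl⟩
  exact h1

theorem CE_conj (w : W) (P : Subgroup W) : CE (cj e ((e w : N) : G)) P P :=
  ⟨w, by rw [cj_of_mem]⟩

/-- the elements which preserve the conjugacy classes of all the subgroups `P v` form a subgroup
of finite index, if `G` permutes these finitely many conjugacy classes -/
theorem exists_fi {V : Type} [Finite V] (P : V → Subgroup W)
    (h : ∀ v g, ∃ w, CE (cj e g) (P v) (P w)) :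
    ∃ H : Subgroup G, H.FiniteIndex ∧ N ≤ H ∧ ∀ g ∈ H, ∀ v, CE (cj e g) (P v) (P v) := by
  letI := ac e
  have h1 : ∀ v, (MulAction.stabilizer G (cc (P v))).FiniteIndex := by
    intro v
    rw [Subgroup.finiteIndex_iff, MulAction.index_stabilizer]
    have hsub : MulAction.orbit G (cc (P v)) ⊆ Set.range fun w => cc (P w) := by
      rintro _ ⟨g, rfl⟩
      obtain ⟨w, hw⟩ := h v g
      exact ⟨w, (ac_cc e hw).symm⟩
    have hfin : (MulAction.orbit G (cc (P v))).Finite := (Set.finite_range _).subset hsub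
    exact (Set.ncard_pos hfin).2 (MulAction.nonempty_orbit _) |>.ne'
  refine ⟨⨅ v, MulAction.stabilizer G (cc (P v)), Subgroup.finiteIndex_iInf h1, ?_, ?_⟩
  · intro x hx
    rw [Subgroup.mem_iInf]
    intro v
    rw [MulAction.mem_stabilizer_iff]
    have h2 := CE_conj e (e.symm ⟨x, hx⟩) (P v)
    rw [e.apply_symm_apply] at h2
    exact ac_cc e h2
  · intro g hg v
    rw [Subgroup.mem_iInf] at hg
    exact CE_of_stab e (MulAction.mem_stabilizer_iff.1 (hg v))

/-- restriction of the isomorphism to a subgroup which contains `N` -/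
theorem exists_sub {H : Subgroup G} (hH : N ≤ H) : ∃ eH : W ≃* ↥(N.subgroupOf H),
    (∀ w, (((eH w : ↥(N.subgroupOf H)) : H) : G) = (e w : N)) ∧
    ∀ [hn : (N.subgroupOf H).Normal] (h : H), cj eH h = cj e (h : G) := by
  refine ⟨e.trans (Subgroup.subgroupOfEquivOfLe hH).symm, fun w => rfl, ?_⟩
  intro hn h
  ext w
  apply e.injective
  apply Subtype.ext
  have h1 : ((e (cj (e.trans (Subgroup.subgroupOfEquivOfLe hH).symm) h w) : N) : G) =
    ((((e.trans (Subgroup.subgroupOfEquivOfLe hH).symm)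
      (cj (e.trans (Subgroup.subgroupOfEquivOfLe hH).symm) h w) : ↥(N.subgroupOf H)) : H) : G) := rfl
  rw [h1, e_cj, e_cj]
  rfl

end fi

theorem main_prm (hC : ClosedE C) (hF : FbC C) {V W G : Type} [Finite V] [Group W]
    [Group G] {Γ : SimpleGraph V} {A : V → Subgroup W} {r : V → V → Prop} {N : Subgroup G}
    [N.Normal] (e : W ≃* N) (hA : IsGP Γ A) (hr : Strat Γ r)
    (hp : ∀ v g, ∃ v', CE (cj e g) (BS A {w | r v w}) (BS A {w | r v' w}))
    (hm : ∀ v g (α : MulAut ↥(BS A (Cls r v))), Ind A (Cls r v) (cj e g) α →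
      C (↥(BS A (Cls r v)) ⋊[zpowersHom (MulAut ↥(BS A (Cls r v))) α] Multiplicative ℤ))
    (hQ : C (G ⧸ N)) : C G := by
  obtain ⟨H, hHf, hNH, hH⟩ := exists_fi e (fun v => BS A {w | r v w}) hp
  obtain ⟨eH, -, hc⟩ := exists_sub e hNH
  have hn : (N.subgroupOf H).Normal := inferInstance
  refine hC.base.finiteIndex G H hHf ?_
  refine main_fin hC hF _ V W H Γ A r (N.subgroupOf H) eH rfl hA hr ?_ ?_ ?_
  · intro v g
    rw [hc]
    exact hH g.1 g.2 v
  · intro v g α hα
    rw [hc] at hα
    exact hm v g.1 α hα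
  · exact Pool.Agent.R941.FJ.quot hC.base H (hC.base.of_injective _ _ _
      (Subgroup.subtype_injective _) hQ)

end Pool.Agent.U68.RG
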