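import Pool.Agent.U68.RG.Kern

/-!
# One step: killing the vertex groups in a set with common link
-/

set_option autoImplicit false

namespace Pool.Agent.U68.RG

open Pool.Agent.Y110.FJ
open Pool.Agent.R684.FP (IsFreeProd FbC main_all)
open Pool.Agent.R941.FJ (C_equiv C_le C_cyc)
open Pool.Agent.Y462.SS (Closed)

variable {C : ∀ (G : Type) [Group G], Prop}

section cj

variable {W G : Type} [Group W] [Group G] {N : Subgroup G} [hN : N.Normal] (e : W ≃* N)

/-- the automorphism of `W` given by the conjugation by `g` on `N` -/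
noncomputable def cj (g : G) : MulAut W := (e.trans (MulAut.conjNormal g)).trans e.symm

theorem e_cj (g : G) (w : W) : (e (cj e g w) : G) = g * e w * g⁻¹ := by
  show ((e (e.symm (MulAut.conjNormal g (e w))) : N) : G) = _
  rw [e.apply_symm_apply, MulAut.conjNormal_apply]

theorem cj_mul (g h : G) : cj e (g * h) = cj e g * cj e h := by
  ext w
  apply e.injective
  apply Subtype.ext
  rw [e_cj, MulAut.mul_apply, e_cj, e_cj]
  group

theorem cj_one : cj e (1 : G) = 1 := by
  ext w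
  apply e.injective
  apply Subtype.ext
  rw [e_cj]
  simp

theorem cj_inv (g : G) : cj e g⁻¹ = (cj e g)⁻¹ := by
  rw [eq_inv_iff_mul_eq_one, ← cj_mul, inv_mul_cancel, cj_one]

/-- `cj` as a homomorphism -/
noncomputable def cjHom : G →* MulAut W where
  toFun := cj e
  map_one' := cj_one e
  map_mul' := cj_mul e

theorem cj_of_mem (w : W) : cj e ((e w : N) : G) = MulAut.conj w := by
  ext u
  apply e.injective
  apply Subtype.ext
  rw [e_cj, MulAut.conj_apply, map_mul, map_mul, map_inv]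
  rfl

end cj

/-! ### the quotient -/

section quo

variable {V W G : Type} [Group W] [Group G] {N : Subgroup G} [hN : N.Normal] (e : W ≃* N)
variable {Γ : SimpleGraph V} {A : V → Subgroup W} {S L : Set V} {ρ : W →* ↥(BS A Sᶜ)}

/-- the kernel as a subgroup of `G` -/
def KK (e : W ≃* N) (ρ : W →* ↥(BS A Sᶜ)) : Subgroup G := ρ.ker.map (N.subtype.comp e.toMonoidHom)

theorem mem_KK {x : G} : x ∈ KK e ρ ↔ ∃ w, ρ w = 1 ∧ (e w : G) = x := Iff.rfl

theorem e_mem_KK {w : W} : ((e w : N) : G) ∈ KK e ρ ↔ ρ w = 1 := by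
  rw [mem_KK]
  constructor
  · rintro ⟨w', h1, h2⟩
    have : w' = w := e.injective (Subtype.ext h2)
    rwa [← this]
  · intro h
    exact ⟨w, h, rfl⟩

theorem KK_le : KK e ρ ≤ N := by
  rintro x ⟨w, -, rfl⟩
  exact (e w).2

theorem KK_normal (h : ∀ (g : G) (w : W), ρ w = 1 → ρ (cj e g w) = 1) : (KK e ρ).Normal := by
  refine ⟨fun x hx g => ?_⟩
  obtain ⟨w, h1, rfl⟩ := hx
  exact ⟨cj e g w, h g w h1, e_cj e g w⟩

theorem rho_rho (hρ : Ret0 A S ρ) (w : W) : ρ ((ρ w : ↥(BS A Sᶜ)) : W) = ρ w := hρ.fix _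

variable [hK : (KK e ρ).Normal]

/-- the isomorphism of the image of the retraction with the image of `N` in the quotient -/
theorem exists_e' (hρ : Ret0 A S ρ) :
    ∃ e' : ↥(BS A Sᶜ) ≃* ↥(N.map (QuotientGroup.mk' (KK e ρ))),
      ∀ w : W, (e' (ρ w) : G ⧸ KK e ρ) = QuotientGroup.mk' (KK e ρ) (e w) := by
  let φ : ↥(BS A Sᶜ) →* ↥(N.map (QuotientGroup.mk' (KK e ρ))) :=
    ((QuotientGroup.mk' (KK e ρ)).comp (N.subtype.comp (e.toMonoidHom.comp
      (BS A Sᶜ).subtype))).codRestrict _ fun h => ⟨_, (e (h : W)).2, rfl⟩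
  have h0 : ∀ w : W, (φ (ρ w) : G ⧸ KK e ρ) = QuotientGroup.mk' (KK e ρ) (e w) := by
    intro w
    show (QuotientGroup.mk ((e ((ρ w : ↥(BS A Sᶜ)) : W) : N) : G) : G ⧸ KK e ρ) =
      QuotientGroup.mk ((e w : N) : G)
    rw [QuotientGroup.eq]
    have : (((e ((ρ w : ↥(BS A Sᶜ)) : W) : N) : G))⁻¹ * ((e w : N) : G) =
        ((e (((ρ w : ↥(BS A Sᶜ)) : W)⁻¹ * w) : N) : G) := by
      rw [map_mul, map_inv]
      rfl
    rw [this, e_mem_KK, map_mul, map_inv, rho_rho hρ, inv_mul_cancel]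
  have hφ : Function.Bijective φ := by
    constructor
    · rw [injective_iff_map_eq_one]
      intro h hh
      have h1 : QuotientGroup.mk' (KK e ρ) ((e (h : W) : N) : G) = 1 := congrArg Subtype.val hh
      have h2 := (QuotientGroup.eq_one_iff _).1 h1
      rw [e_mem_KK, hρ.fix] at h2
      exact h2
    · rintro ⟨_, n, hn, rfl⟩
      refine ⟨ρ (e.symm ⟨n, hn⟩), ?_⟩
      apply Subtype.ext
      rw [h0, e.apply_symm_apply]
  exact ⟨MulEquiv.ofBijective φ hφ, h0⟩

theorem cj_quot (e' : ↥(BS A Sᶜ) ≃* ↥(N.map (QuotientGroup.mk' (KK e ρ))))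
    [hN' : (N.map (QuotientGroup.mk' (KK e ρ))).Normal]
    (he' : ∀ w : W, (e' (ρ w) : G ⧸ KK e ρ) = QuotientGroup.mk' (KK e ρ) (e w)) (g : G) (w : W) :
    cj e' (QuotientGroup.mk' (KK e ρ) g) (ρ w) = ρ (cj e g w) := by
  apply e'.injective
  apply Subtype.ext
  rw [e_cj, he', he', e_cj, map_mul, map_mul, map_inv]

theorem C_quot (hC : ClosedE C) [hN' : (N.map (QuotientGroup.mk' (KK e ρ))).Normal]
    (hQ : C (G ⧸ N)) :
    C ((G ⧸ KK e ρ) ⧸ N.map (QuotientGroup.mk' (KK e ρ))) :=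
  C_equiv hC.base (QuotientGroup.quotientQuotientEquivQuotient (KK e ρ) N (KK_le e)) hQ

end quo

/-! ### the kernel -/

section ker

variable {V W G : Type} [Group W] [Group G] {N : Subgroup G} [hN : N.Normal] (e : W ≃* N)
variable {Γ : SimpleGraph V} {A : V → Subgroup W} {S L : Set V} {ρ : W →* ↥(BS A Sᶜ)}

/-- the free factors in `G` -/
noncomputable def Fc (e : W ≃* N) (A : V → Subgroup W) (S L : Set V) (q : XX A S L) : Subgroup G :=
  (Cj A S L q).map (N.subtype.comp e.toMonoidHom)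

theorem sub_inj : Function.Injective (N.subtype.comp e.toMonoidHom) :=
  N.subtype_injective.comp e.injective

theorem e_mem_Fc {q : XX A S L} {w : W} : ((e w : N) : G) ∈ Fc e A S L q ↔ w ∈ Cj A S L q := by
  constructor
  · rintro ⟨w', h1, h2⟩
    have : w' = w := sub_inj e h2
    rwa [← this]
  · intro h
    exact ⟨w, h, rfl⟩

theorem free_KK (hρ : Ret A S L ρ) : IsFreeProd (KK e ρ) (Fc e A S L) := by
  constructor
  · rw [KK, ← hρ.free.sup, Subgroup.map_iSup]
    rfl
  · let θ : Monoid.CoprodI (fun q => ↥(Fc e A S L q)) →* Monoid.CoprodI (fun q => ↥(Cj A S L q)) :=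
      Monoid.CoprodI.lift fun q => (Monoid.CoprodI.of (M := fun q => ↥(Cj A S L q)) (i := q)).comp
        ((Cj A S L q).equivMapOfInjective _ (sub_inj e)).symm.toMonoidHom
    let θ' : Monoid.CoprodI (fun q => ↥(Cj A S L q)) →* Monoid.CoprodI (fun q => ↥(Fc e A S L q)) :=
      Monoid.CoprodI.lift fun q => (Monoid.CoprodI.of (M := fun q => ↥(Fc e A S L q)) (i := q)).comp
        ((Cj A S L q).equivMapOfInjective _ (sub_inj e)).toMonoidHom
    have h1 : θ'.comp θ = MonoidHom.id _ := by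
      refine Monoid.CoprodI.ext_hom _ _ fun q => MonoidHom.ext fun x => ?_
      simp only [θ, θ', MonoidHom.comp_apply, Monoid.CoprodI.lift_of, MonoidHom.id_apply]
      congr 1
      exact MulEquiv.apply_symm_apply _ x
    have h2 : (Monoid.CoprodI.lift fun q => (Fc e A S L q).subtype) =
        ((N.subtype.comp e.toMonoidHom).comp
          (Monoid.CoprodI.lift fun q => (Cj A S L q).subtype)).comp θ := by
      refine Monoid.CoprodI.ext_hom _ _ fun q => MonoidHom.ext fun x => ?_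
      obtain ⟨y, rfl⟩ := ((Cj A S L q).equivMapOfInjective _ (sub_inj e)).surjective x
      simp only [θ, MonoidHom.comp_apply, Monoid.CoprodI.lift_of]
      show _ = N.subtype (e ((((Cj A S L q).equivMapOfInjective _ (sub_inj e)).symm
        (((Cj A S L q).equivMapOfInjective _ (sub_inj e)) y) : ↥(Cj A S L q)) : W))
      rw [MulEquiv.symm_apply_apply]
      rfl
    have h3 : Function.Injective θ := by
      intro a b hab
      have h4 := congrArg θ' hab
      rw [← MonoidHom.comp_apply, ← MonoidHom.comp_apply, h1] at h4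
      exact h4
    rw [h2]
    exact ((sub_inj e).comp hρ.free.inj).comp h3

/-- the free case -/
theorem step_free (hC : ClosedE C) (hF : FbC C) [hK : (KK e ρ).Normal] (hρ : Ret A S L ρ)
    (hB : IsFreeGroup ↥(BS A S)) (hQ : C (G ⧸ KK e ρ)) : C G := by
  refine main_all hC hF hQ (Fc e A S L) ∅ (free_KK e hρ) ?_ ?_ ?_
  · intro q _
    have h1 : IsFreeGroup ↥(Cj A S L q) := IsFreeGroup.ofMulEquiv
      ((BS A S).equivMapOfInjective (MulAut.conj (q.out : W)).toMonoidHom (MulAut.conj (q.out : W)).injective)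
    exact IsFreeGroup.ofMulEquiv ((Cj A S L q).equivMapOfInjective _ (sub_inj e))
  · intro i hi
    exact absurd hi (Set.notMem_empty i)
  · intro i hi
    exact absurd hi (Set.notMem_empty i)

/-- the image of `BS A S` in `G` -/
def Bg (e : W ≃* N) (A : V → Subgroup W) (S : Set V) : Subgroup G :=
  (BS A S).map (N.subtype.comp e.toMonoidHom)

theorem e_mem_Bg {w : W} : ((e w : N) : G) ∈ Bg e A S ↔ w ∈ BS A S := by
  constructor
  · rintro ⟨w', h1, h2⟩
    have : w' = w := sub_inj e h2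
    rwa [← this]
  · intro h
    exact ⟨w, h, rfl⟩

/-- the case of a preserved conjugacy class -/
theorem step_conj (hC : ClosedE C) (hF : FbC C) [hK : (KK e ρ).Normal] (hA : IsGP Γ A)
    (hL : Link Γ S L) (hρ : Ret A S L ρ)
    (hB : ∀ g : G, ∃ n : W, ∀ b, b ∈ BS A S ↔ n⁻¹ * cj e g b * n ∈ BS A S)
    (hcyc : ∀ g : G, (∀ x, x ∈ Bg e A S ↔ g * x * g⁻¹ ∈ Bg e A S) →
      C ↥(Bg e A S ⊔ Subgroup.zpowers g))
    (hQ : C (G ⧸ KK e ρ)) : C G := by
  refine main_all hC hF hQ (Fc e A S L) Set.univ (free_KK e hρ) ?_ ?_ ?_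
  · intro i hi
    exact absurd (Set.mem_univ i) hi
  · -- the conjugacy classes
    intro q _ g
    obtain ⟨n, hn⟩ := hB g
    -- `u (B) u⁻¹` with `u = σ (q.out) * n`
    obtain ⟨u, hu⟩ : ∃ u : W, u = cj e g (q.out : W) * n := ⟨_, rfl⟩
    obtain ⟨t, ht⟩ : ∃ t : ↥(BS A Sᶜ), t = ρ u := ⟨_, rfl⟩
    have hk : ρ (u * ((t : ↥(BS A Sᶜ)) : W)⁻¹) = 1 := by
      rw [map_mul, map_inv, hρ.fix, ht, mul_inv_cancel]
    obtain ⟨k, hk2⟩ : ∃ k : W, k = u * ((t : ↥(BS A Sᶜ)) : W)⁻¹ := ⟨_, rfl⟩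
    rw [← hk2] at hk
    have hu2 : u = k * (t : W) := by rw [hk2]; group
    refine ⟨QuotientGroup.mk t, trivial, ((e k⁻¹ : N) : G), (e_mem_KK e).2 (by rw [map_inv, hk, inv_one]), ?_⟩
    intro x
    -- both sides only hold for `x ∈ N`
    have key : ∀ w : W, w ∈ Cj A S L q ↔ k⁻¹ * cj e g w * k ∈ Cj A S L (QuotientGroup.mk t) := by
      intro w
      rw [mem_Cj, hn]
      have h1 : n⁻¹ * cj e g ((q.out : W)⁻¹ * w * (q.out : W)) * n = u⁻¹ * cj e g w * u := by
        rw [map_mul, map_mul, map_inv, hu]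
        group
      rw [h1, hu2]
      have h2 : (k * (t : W))⁻¹ * cj e g w * (k * (t : W)) =
          (t : W)⁻¹ * (k⁻¹ * cj e g w * k) * (t : W) := by group
      rw [h2]
      obtain ⟨z, hz⟩ : ∃ z : W, z = k⁻¹ * cj e g w * k := ⟨_, rfl⟩
      rw [← hz]
      constructor
      · intro h
        have h3 := conj_out (L := L) hA hL t h
        have h4 : (t : W) * ((t : W)⁻¹ * z * (t : W)) * (t : W)⁻¹ = z := by group
        rw [h4] at h3
        rw [mem_Cj, ← h3]
        have h5 : ∀ o y : W, o⁻¹ * (o * y * o⁻¹) * o = y := fun o y => by group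
        rw [h5]
        exact h
      · intro h
        rw [mem_Cj] at h
        have h3 := conj_out (L := L) hA hL t h
        have h5 : ∀ o y : W, o * (o⁻¹ * y * o) * o⁻¹ = y := fun o y => by group
        rw [h5] at h3
        obtain ⟨y, hy⟩ : ∃ y : W, y = ((QuotientGroup.mk t : XX A S L).out : W)⁻¹ * z *
          ((QuotientGroup.mk t : XX A S L).out : W) := ⟨_, rfl⟩
        rw [← hy] at h3 h
        rw [h3]
        have h6 : ∀ o y : W, o⁻¹ * (o * y * o⁻¹) * o = y := fun o y => by group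
        rw [h6]
        exact h
    constructor
    · rintro ⟨w, hw, rfl⟩
      have h1 := (key w).1 hw
      have h2 : ((e k⁻¹ : N) : G) * (g * ((e w : N) : G) * g⁻¹) * ((e k⁻¹ : N) : G)⁻¹ =
          ((e (k⁻¹ * cj e g w * k) : N) : G) := by
        rw [map_mul, map_mul, Subgroup.coe_mul, Subgroup.coe_mul, e_cj, map_inv, InvMemClass.coe_inv,
          inv_inv]
      show ((e k⁻¹ : N) : G) * (g * ((e w : N) : G) * g⁻¹) * ((e k⁻¹ : N) : G)⁻¹ ∈ _
      rw [h2]
      exact (e_mem_Fc e).2 h1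
    · intro hx
      obtain ⟨y, hy, hyx⟩ := hx
      have hxN : x ∈ N := by
        have h3 : g * x * g⁻¹ = ((e k⁻¹ : N) : G)⁻¹ * ((e y : N) : G) * ((e k⁻¹ : N) : G) := by
          have h4 : ((e y : N) : G) = ((e k⁻¹ : N) : G) * (g * x * g⁻¹) * ((e k⁻¹ : N) : G)⁻¹ := hyx
          rw [h4]
          group
        have h4 : g * x * g⁻¹ ∈ N := by
          rw [h3]
          exact mul_mem (mul_mem (inv_mem (e k⁻¹).2) (e y).2) (e k⁻¹).2
        have h5 := hN.conj_mem _ h4 g⁻¹
        have h6 : g⁻¹ * (g * x * g⁻¹) * g⁻¹⁻¹ = x := by group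
        rwa [h6] at h5
      obtain ⟨w, hw⟩ : ∃ w : W, ((e w : N) : G) = x := ⟨e.symm ⟨x, hxN⟩, by rw [e.apply_symm_apply]⟩
      rw [← hw]
      refine (e_mem_Fc e).2 ((key w).2 ?_)
      have h2 : ((e k⁻¹ : N) : G) * (g * ((e w : N) : G) * g⁻¹) * ((e k⁻¹ : N) : G)⁻¹ =
          ((e (k⁻¹ * cj e g w * k) : N) : G) := by
        rw [map_mul, map_mul, Subgroup.coe_mul, Subgroup.coe_mul, e_cj, map_inv, InvMemClass.coe_inv,
          inv_inv]
      have h3 : ((e y : N) : G) = ((e (k⁻¹ * cj e g w * k) : N) : G) := by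
        rw [← h2, hw]
        exact hyx
      have h4 : y = k⁻¹ * cj e g w * k := e.injective (Subtype.ext h3)
      rwa [← h4]
  · -- the mapping tori
    intro q _ g hg
    obtain ⟨c, hc⟩ : ∃ c : G, c = ((e (q.out : W) : N) : G) := ⟨_, rfl⟩
    have hFc : Fc e A S L q = (Bg e A S).map (MulAut.conj c).toMonoidHom := by
      rw [Fc, Cj, Bg, Subgroup.map_map, Subgroup.map_map]
      congr 1
      ext w
      show ((e ((q.out : W) * w * (q.out : W)⁻¹) : N) : G) = c * ((e w : N) : G) * c⁻¹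
      rw [hc, map_mul, map_mul, map_inv]
      rfl
    have hmem : ∀ x, x ∈ Fc e A S L q ↔ c⁻¹ * x * c ∈ Bg e A S := by
      intro x
      rw [hFc]
      constructor
      · rintro ⟨b, hb, rfl⟩
        show c⁻¹ * (c * b * c⁻¹) * c ∈ _
        have : c⁻¹ * (c * b * c⁻¹) * c = b := by group
        rwa [this]
      · intro h
        refine ⟨_, h, ?_⟩
        show c * (c⁻¹ * x * c) * c⁻¹ = x
        group
    have h1 : ∀ x, x ∈ Bg e A S ↔ (c⁻¹ * g * c) * x * (c⁻¹ * g * c)⁻¹ ∈ Bg e A S := by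
      intro x
      have h2 := hg (c * x * c⁻¹)
      rw [hmem, hmem] at h2
      have h3 : c⁻¹ * (c * x * c⁻¹) * c = x := by group
      have h4 : c⁻¹ * (g * (c * x * c⁻¹) * g⁻¹) * c = (c⁻¹ * g * c) * x * (c⁻¹ * g * c)⁻¹ := by group
      rwa [h3, h4] at h2
    have h2 := hcyc _ h1
    have h3 : Fc e A S L q ⊔ Subgroup.zpowers g =
        (Bg e A S ⊔ Subgroup.zpowers (c⁻¹ * g * c)).map (MulAut.conj c).toMonoidHom := by
      rw [Subgroup.map_sup, ← hFc, MonoidHom.map_zpowers]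
      congr 2
      show g = c * (c⁻¹ * g * c) * c⁻¹
      group
    rw [h3]
    exact C_equiv hC.base ((Bg e A S ⊔ Subgroup.zpowers (c⁻¹ * g * c)).equivMapOfInjective
      (MulAut.conj c).toMonoidHom (MulAut.conj c).injective).symm h2

end ker

end Pool.Agent.U68.RG
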